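import Mathlib

/-!
# The permanent near a special point: expansion along matrices of a big block
-/

namespace Pool.Agent.L5helper42.DC.Perm

open Finset Equiv

variable {α : Type*} [Fintype α] [DecidableEq α] {R : Type*} [CommRing R]

/-- Averaging of a function over a column which is not used by the weight. -/
theorem avg (φ : Perm α → R) (S : Finset α)
    (hφ : ∀ i ∉ S, ∀ j ∉ S, ∀ σ, φ (σ * swap i j) = φ σ) (h : α → R)
    (j₀ : α) (hj : j₀ ∉ S) :
    ((Fintype.card α : R) - S.card) * ∑ σ, φ σ * h (σ j₀) =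
      (∑ r, h r) * (∑ σ, φ σ) - ∑ l ∈ S, ∑ σ, φ σ * h (σ l) := by
  have h1 : ∀ j ∈ Sᶜ, ∑ σ, φ σ * h (σ j) = ∑ σ, φ σ * h (σ j₀) := by
    intro j hjS
    rw [mem_compl] at hjS
    refine Fintype.sum_equiv (Equiv.mulRight (swap j j₀)) _ _ ?_
    intro σ
    simp [hφ j hjS j₀ hj]
  have h2 : ∑ j, ∑ σ, φ σ * h (σ j) = (∑ r, h r) * (∑ σ, φ σ) := by
    rw [sum_comm, mul_sum]
    refine sum_congr rfl fun σ _ => ?_
    rw [← mul_sum, Equiv.sum_comp σ h, mul_comm]
  rw [← sum_add_sum_compl S, sum_congr rfl h1, sum_const, card_compl, nsmul_eq_mul,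
    Nat.cast_sub (card_le_univ S)] at h2
  linear_combination h2

theorem single (g : α → R) (i : α) :
    (Fintype.card α : R) * ∑ σ : Perm α, g (σ i) = (Fintype.card α).factorial * ∑ r, g r := by
  have := avg (fun _ => (1 : R)) ∅ (by simp) g i (by simp)
  simp only [card_empty, Nat.cast_zero, sub_zero, one_mul, sum_empty, sum_const, card_univ,
    Fintype.card_perm, nsmul_eq_mul, mul_one] at this
  rw [this, mul_comm]

theorem two (g h : α → R) (i j : α) (hij : i ≠ j) :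
    ((Fintype.card α : R) - 1) * ∑ σ : Perm α, g (σ i) * h (σ j) =
      (∑ r, h r) * (∑ σ : Perm α, g (σ i)) - ∑ σ : Perm α, g (σ i) * h (σ i) := by
  have := avg (fun σ => g (σ i)) {i} (by
    intro a ha b hb σ
    rw [mem_singleton] at ha hb
    simp only [Perm.mul_apply]
    rw [swap_apply_of_ne_of_ne (Ne.symm ha) (Ne.symm hb)]) h j (by simpa using hij.symm)
  simpa using this

theorem three (f g h : α → R) (i j k : α) (hij : i ≠ j) (hik : i ≠ k) (hjk : j ≠ k) :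
    ((Fintype.card α : R) - 2) * ∑ σ : Perm α, f (σ i) * g (σ j) * h (σ k) =
      (∑ r, h r) * (∑ σ : Perm α, f (σ i) * g (σ j))
      - ∑ σ : Perm α, f (σ i) * h (σ i) * g (σ j)
      - ∑ σ : Perm α, f (σ i) * (g (σ j) * h (σ j)) := by
  have := avg (fun σ => f (σ i) * g (σ j)) {i, j} (by
    intro a ha b hb σ
    simp only [mem_insert, mem_singleton, not_or] at ha hb
    simp only [Perm.mul_apply]
    rw [swap_apply_of_ne_of_ne (Ne.symm ha.1) (Ne.symm hb.1),
      swap_apply_of_ne_of_ne (Ne.symm ha.2) (Ne.symm hb.2)]) h k (by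
        simp [hik.symm, hjk.symm])
  rw [card_pair hij, sum_pair hij] at this
  push_cast at this
  have e1 : ∑ σ : Perm α, f (σ i) * h (σ i) * g (σ j) =
      ∑ σ : Perm α, f (σ i) * g (σ j) * h (σ i) := sum_congr rfl fun σ _ => by ring
  have e2 : ∑ σ : Perm α, f (σ i) * (g (σ j) * h (σ j)) =
      ∑ σ : Perm α, f (σ i) * g (σ j) * h (σ j) := sum_congr rfl fun σ _ => by ring
  rw [this, e1, e2, sub_sub]

/-- The sum over all permutations of a product of three column functions. -/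
theorem three' (f g h : α → R) (i j k : α) (hij : i ≠ j) (hik : i ≠ k) (hjk : j ≠ k) :
    (Fintype.card α : R) * ((Fintype.card α : R) - 1) * ((Fintype.card α : R) - 2) *
      ∑ σ : Perm α, f (σ i) * g (σ j) * h (σ k) =
      (Fintype.card α).factorial * ((∑ r, f r) * (∑ r, g r) * (∑ r, h r)
        - (∑ r, f r * g r) * (∑ r, h r) - (∑ r, f r * h r) * (∑ r, g r)
        - (∑ r, g r * h r) * (∑ r, f r) + 2 * ∑ r, f r * g r * h r) := by
  have h3 := three f g h i j k hij hik hjk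
  have a1 := two f g i j hij
  have a2 := two (fun r => f r * h r) g i j hij
  have a3 := two f (fun r => g r * h r) i j hij
  have b1 := single f i
  have b2 := single (fun r => f r * g r) i
  have b3 := single (fun r => f r * h r) i
  have b4 := single (fun r => f r * h r * g r) i
  have b5 := single (fun r => f r * (g r * h r)) i
  have e1 : ∑ r, f r * h r * g r = ∑ r, f r * g r * h r := sum_congr rfl fun r _ => by ring
  have e2 : ∑ r, f r * (g r * h r) = ∑ r, f r * g r * h r := sum_congr rfl fun r _ => by ring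
  rw [e1] at b4
  rw [e2] at b5
  set n : R := (Fintype.card α : R) with hn
  linear_combination n * (n - 1) * h3 + n * (∑ r, h r) * a1 - n * a2 - n * a3
    + (∑ r, h r) * (∑ r, g r) * b1 - (∑ r, h r) * b2 - (∑ r, g r) * b3 + b4
    - (∑ r, g r * h r) * b1 + b5

/-- The effect of the two special columns. -/
theorem weight (b₁ b₂ : α → R) (o₁ o₂ : α) (ho : o₁ ≠ o₂) (y : Matrix α α R)
    (h₁ : ∀ r c, y r c * b₁ r = y r c) (h₂ : ∀ r c, y r c * b₂ r = y r c)
    (S : Finset α) (hS₁ : o₁ ∉ S) (hS₂ : o₂ ∉ S) :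
    ((Fintype.card α : R) - S.card) * ((Fintype.card α : R) - S.card - 1) *
      ∑ σ : Perm α, b₁ (σ o₁) * b₂ (σ o₂) * ∏ i ∈ S, y (σ i) i =
      (((∑ r, b₁ r) - S.card) * ((∑ r, b₂ r) - S.card) - ((∑ r, b₁ r * b₂ r) - S.card)) *
        ∑ σ : Perm α, ∏ i ∈ S, y (σ i) i := by
  have key : ∀ (b : α → R), (∀ r c, y r c * b r = y r c) → ∀ l ∈ S, ∀ σ : Perm α,
      (∏ i ∈ S, y (σ i) i) * b (σ l) = ∏ i ∈ S, y (σ i) i := by
    intro b hb l hl σ
    rw [← mul_prod_erase S _ hl]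
    linear_combination (∏ x ∈ S.erase l, y (σ x) x) * hb (σ l) l
  have inv : ∀ i ∉ S, ∀ j ∉ S, ∀ σ : Perm α,
      ∏ l ∈ S, y ((σ * swap i j) l) l = ∏ l ∈ S, y (σ l) l := by
    intro i hi j hj σ
    refine prod_congr rfl fun l hl => ?_
    have h1 : l ≠ i := fun h => hi (h ▸ hl)
    have h2 : l ≠ j := fun h => hj (h ▸ hl)
    rw [Perm.mul_apply, swap_apply_of_ne_of_ne h1 h2]
  have A : ∀ b : α → R, (∀ r c, y r c * b r = y r c) →
      ((Fintype.card α : R) - S.card) * ∑ σ : Perm α, (∏ i ∈ S, y (σ i) i) * b (σ o₂) =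
        ((∑ r, b r) - S.card) * ∑ σ : Perm α, ∏ i ∈ S, y (σ i) i := by
    intro b hb
    have := avg (fun σ => ∏ i ∈ S, y (σ i) i) S inv b o₂ hS₂
    rw [this]
    have h3 : ∑ l ∈ S, ∑ σ : Perm α, (∏ i ∈ S, y (σ i) i) * b (σ l) =
        S.card * ∑ σ : Perm α, ∏ i ∈ S, y (σ i) i := by
      rw [sum_congr rfl fun l hl => sum_congr rfl fun σ _ => key b hb l hl σ, sum_const,
        nsmul_eq_mul]
    rw [h3]
    ring
  have B1 := A b₂ h₂
  have B2 := A (fun r => b₁ r * b₂ r) (fun r c => by rw [← mul_assoc, h₁, h₂])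
  have B3 := avg (fun σ => (∏ i ∈ S, y (σ i) i) * b₂ (σ o₂)) (insert o₂ S) (by
    intro i hi j hj σ
    rw [mem_insert, not_or] at hi hj
    have e1 := inv i hi.2 j hj.2 σ
    have e2 : (σ * swap i j) o₂ = σ o₂ := by
      rw [Perm.mul_apply, swap_apply_of_ne_of_ne (Ne.symm hi.1) (Ne.symm hj.1)]
    change (∏ l ∈ S, y ((σ * swap i j) l) l) * b₂ ((σ * swap i j) o₂) = _
    rw [e1, e2])
    b₁ o₁ (by rw [mem_insert, not_or]; exact ⟨ho, hS₁⟩)
  rw [card_insert_of_notMem hS₂, sum_insert hS₂] at B3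
  have h4 : ∑ l ∈ S, ∑ σ : Perm α, (∏ i ∈ S, y (σ i) i) * b₂ (σ o₂) * b₁ (σ l) =
      S.card * ∑ σ : Perm α, (∏ i ∈ S, y (σ i) i) * b₂ (σ o₂) := by
    have : ∀ l ∈ S, ∑ σ : Perm α, (∏ i ∈ S, y (σ i) i) * b₂ (σ o₂) * b₁ (σ l) =
        ∑ σ : Perm α, (∏ i ∈ S, y (σ i) i) * b₂ (σ o₂) := by
      intro l hl
      refine sum_congr rfl fun σ _ => ?_
      linear_combination b₂ (σ o₂) * key b₁ h₁ l hl σ
    rw [sum_congr rfl this, sum_const, nsmul_eq_mul]
  have h5 : ∑ σ : Perm α, (∏ i ∈ S, y (σ i) i) * b₂ (σ o₂) * b₁ (σ o₂) =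
      ∑ σ : Perm α, (∏ i ∈ S, y (σ i) i) * (b₁ (σ o₂) * b₂ (σ o₂)) :=
    sum_congr rfl fun σ _ => by ring
  have h6 : ∑ σ : Perm α, (∏ i ∈ S, y (σ i) i) * b₂ (σ o₂) * b₁ (σ o₁) =
      ∑ σ : Perm α, b₁ (σ o₁) * b₂ (σ o₂) * ∏ i ∈ S, y (σ i) i :=
    sum_congr rfl fun σ _ => by ring
  rw [h4, h5, h6] at B3
  push_cast at B3
  linear_combination ((Fintype.card α : R) - S.card) * B3
    + ((∑ r, b₁ r) - S.card) * B1 - B2

/-! ### Expansion -/

/-- The base matrix: columns `b₁`, `b₂` in the two special columns, and ones elsewhere. -/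
def base (b₁ b₂ : α → R) (o₁ o₂ : α) : Matrix α α R :=
  Matrix.of fun i j => if j = o₁ then b₁ i else if j = o₂ then b₂ i else 1

/-- The contribution of a set of columns. -/
def E (b₁ b₂ : α → R) (o₁ o₂ : α) (y : Matrix α α R) (S : Finset α) : R :=
  ∑ σ : Perm α, b₁ (σ o₁) * b₂ (σ o₂) * ∏ i ∈ S, y (σ i) i

/-- The homogeneous part of degree `k`. -/
def Fk (b₁ b₂ : α → R) (o₁ o₂ : α) (y : Matrix α α R) (k : ℕ) : R :=
  ∑ S ∈ ((univ.erase o₁).erase o₂).powersetCard k, E b₁ b₂ o₁ o₂ y S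

theorem expansion (b₁ b₂ : α → R) (o₁ o₂ : α) (ho : o₁ ≠ o₂) (y : Matrix α α R)
    (hy₁ : ∀ i, y i o₁ = 0) (hy₂ : ∀ i, y i o₂ = 0) (t : R) :
    (base b₁ b₂ o₁ o₂ + t • y).permanent =
      ∑ k ∈ range (Fintype.card α + 1), t ^ k * Fk b₁ b₂ o₁ o₂ y k := by
  set U := (univ.erase o₁).erase o₂ with hU
  have ho₂ : o₂ ∈ univ.erase o₁ := mem_erase.2 ⟨ho.symm, mem_univ _⟩
  have h1 : ∀ σ : Perm α, ∏ i, (base b₁ b₂ o₁ o₂ + t • y) (σ i) i =
      ∑ S ∈ U.powerset, t ^ S.card * (b₁ (σ o₁) * b₂ (σ o₂) * ∏ i ∈ S, y (σ i) i) := by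
    intro σ
    rw [← mul_prod_erase univ _ (mem_univ o₁), ← mul_prod_erase (univ.erase o₁) _ ho₂]
    have : ∀ i ∈ U, (base b₁ b₂ o₁ o₂ + t • y) (σ i) i = 1 + t * y (σ i) i := by
      intro i hi
      rw [hU, mem_erase, mem_erase] at hi
      simp [base, hi.1, hi.2.1]
    rw [prod_congr rfl this, prod_one_add, mul_sum, mul_sum]
    refine sum_congr rfl fun S _ => ?_
    rw [prod_mul_distrib, prod_const]
    simp only [Matrix.add_apply, Matrix.smul_apply, hy₁, hy₂, smul_zero, add_zero, base,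
      Matrix.of_apply, if_true, if_neg ho.symm]
    ring
  rw [Matrix.permanent, sum_congr rfl fun σ _ => h1 σ, sum_comm]
  have hcard : U.card ≤ Fintype.card α := card_le_univ _
  have hmaps : ∀ S ∈ U.powerset, S.card ∈ range (Fintype.card α + 1) := by
    intro S hS
    rw [mem_powerset] at hS
    have := card_le_card hS
    rw [mem_range]
    omega
  rw [← sum_fiberwise_of_maps_to hmaps]
  refine sum_congr rfl fun k _ => ?_
  rw [Fk, mul_sum]
  have : (U.powerset.filter fun S => S.card = k) = U.powersetCard k := by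
    ext S
    simp [mem_powersetCard]
  rw [this]
  refine sum_congr rfl fun S hS => ?_
  rw [(mem_powersetCard.1 hS).2, E, mul_sum]

end Pool.Agent.L5helper42.DC.Perm
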