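import Mathlib
import Pool.Agent.L5helper42.DC.Perm

/-!
# The first coefficients of the expansion of the permanent
-/

namespace Pool.Agent.L5helper42.DC.Perm

open Finset Equiv

section Newton

variable {α : Type*} [DecidableEq α] {R : Type*} [CommRing R]

theorem el_insert (f : α → R) (k : ℕ) (a : α) (s : Finset α) (ha : a ∉ s) :
    ∑ S ∈ powersetCard (k + 1) (insert a s), ∏ i ∈ S, f i =
      ∑ S ∈ powersetCard (k + 1) s, ∏ i ∈ S, f i + f a * ∑ S ∈ powersetCard k s, ∏ i ∈ S, f i := by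
  have hmem : ∀ S ∈ powersetCard k s, a ∉ S := fun S hS h =>
    ha ((mem_powersetCard.1 hS).1 h)
  rw [powersetCard_succ_insert ha, sum_union, sum_image, mul_sum]
  · congr 1
    refine sum_congr rfl fun S hS => ?_
    rw [prod_insert (hmem S hS)]
  · intro S hS T hT h
    rw [← erase_insert (hmem S hS), h, erase_insert (hmem T hT)]
  · rw [disjoint_left]
    intro S hS hS'
    rw [mem_image] at hS'
    obtain ⟨T, _, rfl⟩ := hS'
    exact ha ((mem_powersetCard.1 hS).1 (mem_insert_self a T))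

theorem newton (f : α → R) (s : Finset α) :
    (∑ S ∈ powersetCard 1 s, ∏ i ∈ S, f i = ∑ i ∈ s, f i) ∧
    (2 * ∑ S ∈ powersetCard 2 s, ∏ i ∈ S, f i = (∑ i ∈ s, f i) ^ 2 - ∑ i ∈ s, f i ^ 2) ∧
    (6 * ∑ S ∈ powersetCard 3 s, ∏ i ∈ S, f i = (∑ i ∈ s, f i) ^ 3 -
      3 * (∑ i ∈ s, f i) * ∑ i ∈ s, f i ^ 2 + 2 * ∑ i ∈ s, f i ^ 3) := by
  induction s using Finset.induction_on with
  | empty =>
    have h0 : ∀ k : ℕ, powersetCard (k + 1) (∅ : Finset α) = ∅ := fun k =>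
      powersetCard_eq_empty.2 (by simp)
    have h1 : powersetCard 1 (∅ : Finset α) = ∅ := h0 0
    have h2 : powersetCard 2 (∅ : Finset α) = ∅ := h0 1
    have h3 : powersetCard 3 (∅ : Finset α) = ∅ := h0 2
    rw [h1, h2, h3]
    simp
  | insert a s ha ih =>
    obtain ⟨h1, h2, h3⟩ := ih
    have e1 := el_insert f 0 a s ha
    have e2 := el_insert f 1 a s ha
    have e3 := el_insert f 2 a s ha
    simp only [powersetCard_zero, sum_singleton, prod_empty, mul_one, zero_add] at e1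
    norm_num at e2 e3
    rw [e1, e2, e3, sum_insert ha, sum_insert ha, sum_insert ha]
    refine ⟨by rw [h1]; ring, ?_, ?_⟩
    · rw [h1]
      linear_combination h2
    · linear_combination h3 + 3 * f a * h2

/-- Double counting of the sets with a marked element. -/
theorem marked (U : Finset α) (k : ℕ) (G : α → Finset α → R) :
    ∑ T ∈ U.powersetCard (k + 1), ∑ l ∈ T, G l (T.erase l) =
      ∑ l ∈ U, ∑ T ∈ (U.erase l).powersetCard k, G l T := by
  rw [sum_sigma', sum_sigma']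
  refine sum_bij' (fun x _ => ⟨x.2, x.1.erase x.2⟩) (fun x _ => ⟨insert x.1 x.2, x.1⟩)
    ?_ ?_ ?_ ?_ ?_
  · rintro ⟨T, l⟩ h
    simp only [mem_sigma, mem_powersetCard] at h ⊢
    refine ⟨h.1.1 h.2, erase_subset_erase _ h.1.1, ?_⟩
    rw [card_erase_of_mem h.2, h.1.2]
    rfl
  · rintro ⟨l, T⟩ h
    simp only [mem_sigma, mem_powersetCard] at h ⊢
    have hl : l ∉ T := fun hl => by
      have := h.2.1 hl
      simp at this
    refine ⟨⟨?_, ?_⟩, mem_insert_self _ _⟩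
    · exact insert_subset h.1 (h.2.1.trans (erase_subset _ _))
    · rw [card_insert_of_notMem hl, h.2.2]
  · rintro ⟨T, l⟩ h
    simp only [mem_sigma, mem_powersetCard] at h
    simp only [Sigma.mk.injEq, heq_eq_eq, and_true]
    exact insert_erase h.2
  · rintro ⟨l, T⟩ h
    simp only [mem_sigma, mem_powersetCard] at h
    have hl : l ∉ T := fun hl => by
      have := h.2.1 hl
      simp at this
    simp only [Sigma.mk.injEq, heq_eq_eq, true_and]
    exact erase_insert hl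
  · rintro ⟨T, l⟩ h
    rfl

end Newton

section Values

variable {α : Type*} [Fintype α] [DecidableEq α] {R : Type*} [CommRing R]

/-- The hypotheses on the two special columns and on the perturbation. -/
structure Hyp (b₁ b₂ : α → R) (o₁ o₂ : α) (y : Matrix α α R) : Prop where
  ne : o₁ ≠ o₂
  kap : ∀ k : ℕ, ((∑ r, b₁ r) - k) * ((∑ r, b₂ r) - k) - ((∑ r, b₁ r * b₂ r) - k) =
    (k : R) * (k - 2)
  h₁ : ∀ r c, y r c * b₁ r = y r c
  h₂ : ∀ r c, y r c * b₂ r = y r c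
  c₁ : ∀ i, y i o₁ = 0
  c₂ : ∀ i, y i o₂ = 0

variable {b₁ b₂ : α → R} {o₁ o₂ : α} {y : Matrix α α R}

theorem Hyp.weight (H : Hyp b₁ b₂ o₁ o₂ y) (S : Finset α) (k : ℕ)
    (hS : S ∈ ((univ.erase o₁).erase o₂).powersetCard k) :
    ((Fintype.card α : R) - k) * ((Fintype.card α : R) - k - 1) * E b₁ b₂ o₁ o₂ y S =
      (k : R) * (k - 2) * ∑ σ : Perm α, ∏ i ∈ S, y (σ i) i := by
  rw [mem_powersetCard] at hS
  have h1 : o₁ ∉ S := fun h => by
    have := hS.1 h
    simp at this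
  have h2 : o₂ ∉ S := fun h => by
    have := hS.1 h
    simp at this
  have := Perm.weight b₁ b₂ o₁ o₂ H.ne y H.h₁ H.h₂ S h1 h2
  rw [hS.2, H.kap] at this
  exact this

theorem Hyp.sum_eq (H : Hyp b₁ b₂ o₁ o₂ y) (g : α → R) (hg₁ : g o₁ = 0) (hg₂ : g o₂ = 0) :
    ∑ i ∈ (univ.erase o₁).erase o₂, g i = ∑ i, g i := by
  have ho₂ : o₂ ∈ univ.erase o₁ := mem_erase.2 ⟨H.ne.symm, mem_univ _⟩
  rw [← add_sum_erase univ _ (mem_univ o₁), ← add_sum_erase (univ.erase o₁) _ ho₂, hg₁, hg₂,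
    zero_add, zero_add]

theorem Hyp.F0 (H : Hyp b₁ b₂ o₁ o₂ y) :
    (Fintype.card α : R) * ((Fintype.card α : R) - 1) * Fk b₁ b₂ o₁ o₂ y 0 = 0 := by
  rw [Fk, powersetCard_zero, sum_singleton]
  have := H.weight ∅ 0 (by simp)
  simpa using this

theorem Hyp.F2 (H : Hyp b₁ b₂ o₁ o₂ y) :
    ((Fintype.card α : R) - 2) * ((Fintype.card α : R) - 3) * Fk b₁ b₂ o₁ o₂ y 2 = 0 := by
  rw [Fk, mul_sum]
  refine sum_eq_zero fun S hS => ?_
  have := H.weight S 2 hS
  push_cast at this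
  linear_combination this

theorem Hyp.F1 (H : Hyp b₁ b₂ o₁ o₂ y) :
    (Fintype.card α : R) * ((Fintype.card α : R) - 1) * ((Fintype.card α : R) - 2) *
      Fk b₁ b₂ o₁ o₂ y 1 = - ((Fintype.card α).factorial * ∑ r, ∑ c, y r c) := by
  have h1 : ∀ S ∈ ((univ.erase o₁).erase o₂).powersetCard 1,
      (Fintype.card α : R) * ((Fintype.card α : R) - 1) * ((Fintype.card α : R) - 2) *
        E b₁ b₂ o₁ o₂ y S = - ((Fintype.card α).factorial * ∏ i ∈ S, ∑ r, y r i) := by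
    intro S hS
    have h2 := H.weight S 1 hS
    rw [mem_powersetCard, card_eq_one] at hS
    obtain ⟨hS, i, rfl⟩ := hS
    have h3 := single (fun r => y r i) i
    rw [prod_singleton]
    simp only [prod_singleton] at h2
    push_cast at h2
    linear_combination (Fintype.card α : R) * h2 - h3
  rw [Fk, mul_sum, sum_congr rfl h1, sum_neg_distrib, ← mul_sum,
    (newton (fun c => ∑ r, y r c) _).1, H.sum_eq]
  · rw [sum_comm]
  · simp [H.c₁]
  · simp [H.c₂]

/-- The cubic form. -/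
def G (y : Matrix α α R) : R :=
  ((∑ c, ∑ r, y r c) ^ 3 - 3 * (∑ c, ∑ r, y r c) * ∑ c, (∑ r, y r c) ^ 2 +
      2 * ∑ c, (∑ r, y r c) ^ 3) -
    3 * ∑ c, (∑ r, y r c) *
      ∑ r, (((∑ j, y r j) - y r c) ^ 2 - ((∑ j, y r j ^ 2) - y r c ^ 2)) +
    2 * ∑ r, ((∑ c, y r c) ^ 3 - 3 * (∑ c, y r c) * (∑ c, y r c ^ 2) + 2 * ∑ c, y r c ^ 3)

theorem Hyp.F3 (H : Hyp b₁ b₂ o₁ o₂ y) :
    (Fintype.card α : R) * ((Fintype.card α : R) - 1) * ((Fintype.card α : R) - 2) *
      ((Fintype.card α : R) - 3) * ((Fintype.card α : R) - 4) *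
      (6 * Fk b₁ b₂ o₁ o₂ y 3) = 3 * (Fintype.card α).factorial * G y := by
  set U := (univ.erase o₁).erase o₂ with hU
  set N : R := (Fintype.card α : R) with hN
  have h1 : ∀ S ∈ U.powersetCard 3,
      N * (N - 1) * (N - 2) * (N - 3) * (N - 4) *
        E b₁ b₂ o₁ o₂ y S = 3 * ((Fintype.card α).factorial * ((∏ i ∈ S, ∑ r, y r i) -
          (∑ l ∈ S, (∑ r, y r l) * ∑ r, ∏ i ∈ S.erase l, y r i) +
          2 * ∑ r, ∏ i ∈ S, y r i)) := by
    intro S hS
    have h2 := H.weight S 3 hS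
    rw [mem_powersetCard, card_eq_three] at hS
    obtain ⟨hS, i, j, k, hij, hik, hjk, rfl⟩ := hS
    have h3 := three' (fun r => y r i) (fun r => y r j) (fun r => y r k) i j k hij hik hjk
    have e0 : ∀ g : α → R, ∏ l ∈ ({i, j, k} : Finset α), g l = g i * g j * g k := by
      intro g
      rw [prod_insert (by simp [hij, hik]), prod_pair hjk]
      ring
    have e1 : ∀ g : α → R, ∑ l ∈ ({i, j, k} : Finset α), g l = g i + g j + g k := by
      intro g
      rw [sum_insert (by simp [hij, hik]), sum_pair hjk]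
      ring
    have f1 : ({i, j, k} : Finset α).erase i = {j, k} := by
      rw [erase_insert (by simp [hij, hik])]
    have f2 : ({i, j, k} : Finset α).erase j = {i, k} := by
      ext x
      simp only [mem_erase, mem_insert, mem_singleton]
      constructor
      · rintro ⟨h, rfl | rfl | rfl⟩
        · exact Or.inl rfl
        · exact absurd rfl h
        · exact Or.inr rfl
      · rintro (rfl | rfl)
        · exact ⟨hij, Or.inl rfl⟩
        · exact ⟨hjk.symm, Or.inr (Or.inr rfl)⟩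
    have f3 : ({i, j, k} : Finset α).erase k = {i, j} := by
      ext x
      simp only [mem_erase, mem_insert, mem_singleton]
      constructor
      · rintro ⟨h, rfl | rfl | rfl⟩
        · exact Or.inl rfl
        · exact Or.inr rfl
        · exact absurd rfl h
      · rintro (rfl | rfl)
        · exact ⟨hik, Or.inl rfl⟩
        · exact ⟨hjk, Or.inr (Or.inl rfl)⟩
    rw [e0, e1, f1, f2, f3]
    simp only [e0] at h2 ⊢
    simp only [prod_pair hij, prod_pair hik, prod_pair hjk]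
    push_cast at h2
    have g1 : ∑ r, y r i * y r k = ∑ r, y r i * y r k := rfl
    linear_combination N * (N - 1) * (N - 2) * h2 + 3 * h3
  have h2 : N * (N - 1) * (N - 2) * (N - 3) * (N - 4) * Fk b₁ b₂ o₁ o₂ y 3 =
      3 * (Fintype.card α).factorial * ((∑ S ∈ U.powersetCard 3, ∏ i ∈ S, ∑ r, y r i) -
        (∑ S ∈ U.powersetCard 3, ∑ l ∈ S, (∑ r, y r l) * ∑ r, ∏ i ∈ S.erase l, y r i) +
        2 * ∑ r, ∑ S ∈ U.powersetCard 3, ∏ i ∈ S, y r i) := by
    rw [Fk, mul_sum, sum_congr rfl h1]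
    rw [sum_comm (s := univ) (t := U.powersetCard 3)]
    simp only [← mul_sum, sum_add_distrib, sum_sub_distrib]
    ring
  have h3 := (newton (fun c => ∑ r, y r c) U).2.2
  rw [H.sum_eq _ (by simp [H.c₁]) (by simp [H.c₂]), H.sum_eq _ (by simp [H.c₁]) (by simp [H.c₂]),
    H.sum_eq _ (by simp [H.c₁]) (by simp [H.c₂])] at h3
  have h4 : ∑ S ∈ U.powersetCard 3, ∑ l ∈ S, (∑ r, y r l) * ∑ r, ∏ i ∈ S.erase l, y r i =
      ∑ l ∈ U, (∑ r, y r l) * ∑ r, ∑ T ∈ (U.erase l).powersetCard 2, ∏ i ∈ T, y r i := by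
    have := marked U 2 (fun l T => (∑ r, y r l) * ∑ r, ∏ i ∈ T, y r i)
    rw [this]
    refine sum_congr rfl fun l _ => ?_
    rw [← mul_sum, sum_comm]
  have h5 : ∀ l ∈ U, 2 * ((∑ r, y r l) * ∑ r, ∑ T ∈ (U.erase l).powersetCard 2, ∏ i ∈ T, y r i) =
      (∑ r, y r l) * ∑ r, (((∑ j, y r j) - y r l) ^ 2 - ((∑ j, y r j ^ 2) - y r l ^ 2)) := by
    intro l hl
    have : ∀ r ∈ (univ : Finset α), 2 * ∑ T ∈ (U.erase l).powersetCard 2, ∏ i ∈ T, y r i =
        (((∑ j, y r j) - y r l) ^ 2 - ((∑ j, y r j ^ 2) - y r l ^ 2)) := by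
      intro r _
      rw [(newton (fun c => y r c) (U.erase l)).2.1]
      have a1 := add_sum_erase U (fun c => y r c) hl
      have a2 := add_sum_erase U (fun c => y r c ^ 2) hl
      rw [H.sum_eq _ (by simp [H.c₁]) (by simp [H.c₂])] at a1 a2
      have a3 : ∑ i ∈ U.erase l, y r i = (∑ j, y r j) - y r l := by
        rw [← a1]; ring
      have a4 : ∑ i ∈ U.erase l, y r i ^ 2 = (∑ j, y r j ^ 2) - y r l ^ 2 := by
        rw [← a2]; ring
      rw [a3, a4]
    rw [← sum_congr rfl this, ← mul_sum]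
    ring
  have h6 : 2 * ∑ l ∈ U, (∑ r, y r l) * ∑ r, ∑ T ∈ (U.erase l).powersetCard 2, ∏ i ∈ T, y r i =
      ∑ l, (∑ r, y r l) *
        ∑ r, (((∑ j, y r j) - y r l) ^ 2 - ((∑ j, y r j ^ 2) - y r l ^ 2)) := by
    rw [mul_sum, sum_congr rfl h5, H.sum_eq _ (by simp [H.c₁]) (by simp [H.c₂])]
  have h7 : 6 * ∑ r, ∑ S ∈ U.powersetCard 3, ∏ i ∈ S, y r i =
      ∑ r, ((∑ c, y r c) ^ 3 - 3 * (∑ c, y r c) * (∑ c, y r c ^ 2) + 2 * ∑ c, y r c ^ 3) := by
    rw [mul_sum]
    refine sum_congr rfl fun r _ => ?_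
    rw [(newton (fun c => y r c) U).2.2]
    rw [H.sum_eq _ (by simp [H.c₁]) (by simp [H.c₂]), H.sum_eq _ (by simp [H.c₁]) (by simp [H.c₂]),
      H.sum_eq _ (by simp [H.c₁]) (by simp [H.c₂])]
  rw [G]
  rw [h4] at h2
  linear_combination 6 * h2 + 3 * (Fintype.card α).factorial * h3
    - 9 * (Fintype.card α).factorial * h6 + 6 * (Fintype.card α).factorial * h7

end Values

end Pool.Agent.L5helper42.DC.Perm
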