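import Mathlib

/-!
# Linear pencils of matrices near a matrix of corank one
-/

namespace Pool.Agent.L5helper42.DC.Det

open Module

section Gen

variable {ι : Type*} [Fintype ι] [DecidableEq ι] {R : Type*} [CommRing R]

theorem det_upd (i₀ : ι) (e : R) :
    (Matrix.diagonal (fun i => if i = i₀ then e else (1 : R))).det = e := by
  rw [Matrix.det_diagonal, Finset.prod_ite_eq' Finset.univ i₀ (fun _ => e)]
  simp

/-- A factor common to a row and a column. -/
theorem det_bordered (M M' : Matrix ι ι R) (i₀ : ι) (e : R)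
    (h00 : M i₀ i₀ = 0) (h00' : M' i₀ i₀ = 0)
    (hr : ∀ j, j ≠ i₀ → M i₀ j = e * M' i₀ j) (hc : ∀ j, j ≠ i₀ → M j i₀ = e * M' j i₀)
    (h : ∀ i j, i ≠ i₀ → j ≠ i₀ → M i j = M' i j) : M.det = e ^ 2 * M'.det := by
  have hM : M = Matrix.diagonal (fun i => if i = i₀ then e else (1 : R)) * M' *
      Matrix.diagonal (fun i => if i = i₀ then e else (1 : R)) := by
    ext i j
    rw [Matrix.mul_diagonal, Matrix.diagonal_mul]
    by_cases hi : i = i₀
    · by_cases hj : j = i₀
      · rw [hi, hj, h00, h00']; simp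
      · rw [hi, hr j hj]; simp [hj]
    · by_cases hj : j = i₀
      · rw [hj, hc i hi]; simp [hi, mul_comm]
      · rw [h i j hi hj]; simp [hi, hj]
  rw [hM, Matrix.det_mul, Matrix.det_mul, det_upd]
  ring

/-- A factor of one row. -/
theorem det_row (M M' : Matrix ι ι R) (i₀ : ι) (e : R) (hr : ∀ j, M i₀ j = e * M' i₀ j)
    (h : ∀ i j, i ≠ i₀ → M i j = M' i j) : M.det = e * M'.det := by
  have hM : M = Matrix.diagonal (fun i => if i = i₀ then e else (1 : R)) * M' := by
    ext i j
    rw [Matrix.diagonal_mul]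
    by_cases hi : i = i₀
    · rw [hi, hr j]; simp
    · rw [h i j hi]; simp [hi]
  rw [hM, Matrix.det_mul, det_upd]

/-- A factor common to two rows. -/
theorem det_two_rows (M : Matrix ι ι R) (i₀ i₁ : ι) (hne : i₀ ≠ i₁) (e : R)
    (h₀ : ∀ j, e ∣ M i₀ j) (h₁ : ∀ j, e ∣ M i₁ j) : e ^ 2 ∣ M.det := by
  choose p hp using h₀
  choose q hq using h₁
  have a1 := det_row M (Matrix.updateRow M i₀ p) i₀ e (fun j => by
    rw [Matrix.updateRow_self, hp]) (fun i j hi => by rw [Matrix.updateRow_ne hi])
  have a2 := det_row (Matrix.updateRow M i₀ p)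
    (Matrix.updateRow (Matrix.updateRow M i₀ p) i₁ q) i₁ e (fun j => by
    rw [Matrix.updateRow_self, Matrix.updateRow_ne hne.symm, hq]) (fun i j hi => by
      rw [Matrix.updateRow_ne hi])
  rw [a1, a2, ← mul_assoc, ← pow_two]
  exact dvd_mul_right _ _

end Gen

section Lin

variable {F : Type*} [Field F]

/-- The annihilator of `W` for the dot product has at most the complementary dimension. -/
theorem finrank_annihilator {ι : Type*} [Fintype ι] (W Y : Submodule F (ι → F))
    (h : ∀ y ∈ Y, ∀ w ∈ W, ∑ i, y i * w i = 0) : finrank F Y + finrank F W ≤ Fintype.card ι := by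
  classical
  have h1 := Subspace.finrank_add_finrank_dualAnnihilator_eq (K := F) (V := ι → F) W
  rw [Module.finrank_fintype_fun_eq_card] at h1
  let e := dotProductEquiv F ι
  have h2 : Y.map e.toLinearMap ≤ W.dualAnnihilator := by
    rintro _ ⟨y, hy, rfl⟩
    rw [Submodule.mem_dualAnnihilator]
    intro w hw
    have := h y hy w hw
    simpa [e, dotProduct] using this
  have h3 := Submodule.finrank_mono h2
  have h4 : finrank F (Y.map e.toLinearMap) = finrank F Y :=
    (Submodule.equivMapOfInjective e.toLinearMap e.injective Y).finrank_eq.symm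
  omega

/-- Two linear maps with identically vanishing dot product have a large common kernel. -/
theorem common_kernel {κ : Type*} [Fintype κ] {U : Type*} [AddCommGroup U] [Module F U]
    [FiniteDimensional F U] (a b : U →ₗ[F] (κ → F)) (h : ∀ y, ∑ j, a y j * b y j = 0) :
    finrank F U ≤ Fintype.card κ + finrank F (LinearMap.ker a ⊓ LinearMap.ker b : Submodule F U) := by
  have hpol : ∀ y z, a y = 0 → ∑ j, a z j * b y j = 0 := by
    intro y z hy
    have h1 := h (y + z)
    simp only [map_add, Pi.add_apply, hy, Pi.zero_apply, zero_add, mul_add] at h1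
    rw [Finset.sum_add_distrib, h z, add_zero] at h1
    exact h1
  have h1 := LinearMap.finrank_range_add_finrank_ker a
  set b' : LinearMap.ker a →ₗ[F] (κ → F) := b.comp (LinearMap.ker a).subtype with hb'
  have h2 := LinearMap.finrank_range_add_finrank_ker b'
  have h3 := finrank_annihilator (LinearMap.range b') (LinearMap.range a) (by
    rintro _ ⟨z, rfl⟩ _ ⟨⟨y, hy⟩, rfl⟩
    exact hpol y z (LinearMap.mem_ker.1 hy))
  have h4 : finrank F (LinearMap.ker b') ≤
      finrank F (LinearMap.ker a ⊓ LinearMap.ker b : Submodule F U) := by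
    have : (LinearMap.ker b').map (LinearMap.ker a).subtype ≤
        (LinearMap.ker a ⊓ LinearMap.ker b : Submodule F U) := by
      rintro _ ⟨⟨y, hy⟩, hy', rfl⟩
      refine ⟨hy, ?_⟩
      have := LinearMap.mem_ker.1 hy'
      simpa [hb'] using this
    refine le_trans ?_ (Submodule.finrank_mono this)
    rw [(Submodule.equivMapOfInjective (LinearMap.ker a).subtype
      (Submodule.subtype_injective _) (LinearMap.ker b')).finrank_eq]
  omega

/-- A bordered diagonal matrix. -/
theorem bordered_zero {n : ℕ} (M : Matrix (Fin n) (Fin n) F) (i₀ : Fin n) (D : Fin n → F)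
    (hD : ∀ j, j ≠ i₀ → D j ≠ 0) (h00 : M i₀ i₀ = 0)
    (h : ∀ i j, i ≠ i₀ → j ≠ i₀ → M i j = if i = j then D i else 0) (hdet : M.det = 0) :
    ∑ j : {j // j ≠ i₀}, M i₀ j * (M j i₀ / D j) = 0 := by
  rw [← Matrix.exists_mulVec_eq_zero_iff] at hdet
  obtain ⟨v, hv, hMv⟩ := hdet
  have hrow : ∀ i, i ≠ i₀ → v i = - (M i i₀ / D i) * v i₀ := by
    intro i hi
    have h1 := congrFun hMv i
    simp only [Matrix.mulVec, dotProduct, Pi.zero_apply] at h1
    rw [← Finset.add_sum_erase Finset.univ _ (Finset.mem_univ i₀)] at h1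
    have h2 : ∑ j ∈ Finset.univ.erase i₀, M i j * v j = D i * v i := by
      rw [Finset.sum_eq_single i]
      · rw [h i i hi hi, if_pos rfl]
      · intro j hj hji
        rw [h i j hi (Finset.mem_erase.1 hj).1, if_neg hji.symm, zero_mul]
      · intro h3
        exact absurd (Finset.mem_erase.2 ⟨hi, Finset.mem_univ i⟩) h3
    rw [h2] at h1
    have hDi := hD i hi
    field_simp
    linear_combination h1
  have hv0 : v i₀ ≠ 0 := by
    intro h0
    apply hv
    funext i
    by_cases hi : i = i₀
    · rw [hi, h0]; rfl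
    · rw [hrow i hi, h0, mul_zero]; rfl
  have h1 := congrFun hMv i₀
  simp only [Matrix.mulVec, dotProduct, Pi.zero_apply] at h1
  rw [← Finset.add_sum_erase Finset.univ _ (Finset.mem_univ i₀), h00, zero_mul, zero_add] at h1
  have h2 : ∑ j ∈ Finset.univ.erase i₀, M i₀ j * v j =
      - (∑ j ∈ Finset.univ.erase i₀, M i₀ j * (M j i₀ / D j)) * v i₀ := by
    rw [← Finset.sum_neg_distrib, Finset.sum_mul]
    refine Finset.sum_congr rfl fun j hj => ?_
    rw [hrow j (Finset.mem_erase.1 hj).1]
    ring
  rw [h2] at h1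
  have h3 : ∑ j ∈ Finset.univ.erase i₀, M i₀ j * (M j i₀ / D j) = 0 := by
    rcases mul_eq_zero.1 h1 with h | h
    · exact neg_eq_zero.1 h
    · exact absurd h hv0
  rw [← h3]
  exact (Finset.sum_subtype (Finset.univ.erase i₀) (p := fun j => j ≠ i₀) (fun x => by simp)
    (fun j => M i₀ j * (M j i₀ / D j))).symm

theorem row_zero {n : ℕ} (M : Matrix (Fin n) (Fin n) F) (i₀ : Fin n) (D : Fin n → F)
    (hD : ∀ j, j ≠ i₀ → D j ≠ 0)
    (h : ∀ i j, i ≠ i₀ → M i j = if i = j then D i else 0) (hdet : M.det = 0) :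
    M i₀ i₀ = 0 := by
  rw [← Matrix.exists_mulVec_eq_zero_iff] at hdet
  obtain ⟨v, hv, hMv⟩ := hdet
  have hrow : ∀ i, i ≠ i₀ → v i = 0 := by
    intro i hi
    have h1 := congrFun hMv i
    simp only [Matrix.mulVec, dotProduct, Pi.zero_apply] at h1
    rw [Finset.sum_eq_single i] at h1
    · rw [h i i hi, if_pos rfl] at h1
      rcases mul_eq_zero.1 h1 with h | h
      · exact absurd h (hD i hi)
      · exact h
    · intro j _ hji
      rw [h i j hi, if_neg hji.symm, zero_mul]
    · intro h3
      exact absurd (Finset.mem_univ i) h3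
  have hv0 : v i₀ ≠ 0 := by
    intro h0
    apply hv
    funext i
    by_cases hi : i = i₀
    · rw [hi, h0]; rfl
    · rw [hrow i hi]; rfl
  have h1 := congrFun hMv i₀
  simp only [Matrix.mulVec, dotProduct, Pi.zero_apply] at h1
  rw [Finset.sum_eq_single i₀] at h1
  · rcases mul_eq_zero.1 h1 with h | h
    · exact h
    · exact absurd h hv0
  · intro j _ hj
    rw [hrow j hj, mul_zero]
  · intro h3
    exact absurd (Finset.mem_univ _) h3

end Lin

section Pencil

open Polynomial

variable {F : Type*} [Field F]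

/-- The pencil `B + X C`. -/
noncomputable def pen {n : ℕ} (B C' : Matrix (Fin n) (Fin n) F) : F[X] :=
  (B.map Polynomial.C + (Polynomial.X : F[X]) • C'.map Polynomial.C).det

theorem pen_mul {n : ℕ} (P Q B C' : Matrix (Fin n) (Fin n) F) (hP : P.det = 1) (hQ : Q.det = 1) :
    pen (P * B * Q) (P * C' * Q) = pen B C' := by
  have h1 : (P * B * Q).map Polynomial.C + (Polynomial.X : F[X]) • (P * C' * Q).map Polynomial.C =
      P.map Polynomial.C * (B.map Polynomial.C + (Polynomial.X : F[X]) • C'.map Polynomial.C) *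
        Q.map Polynomial.C := by
    rw [Matrix.map_mul, Matrix.map_mul, Matrix.map_mul, Matrix.map_mul, mul_add, add_mul]
    congr 1
    rw [Matrix.mul_smul, Matrix.smul_mul]
  have h2 : ∀ P : Matrix (Fin n) (Fin n) F, (P.map (Polynomial.C : F → F[X])).det =
      Polynomial.C P.det := fun P => by
    have := RingHom.map_det (Polynomial.C : F →+* F[X]) P
    rw [this]
    rfl
  rw [pen, h1, Matrix.det_mul, Matrix.det_mul, h2, h2, hP, hQ, pen]
  simp

variable {V : Type*} [AddCommGroup V] [Module F V] [FiniteDimensional F V]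

/-- **Pencil lemma.** -/
theorem pencil {n : ℕ} (B : Matrix (Fin n) (Fin n) F) (Cm : V →ₗ[F] Matrix (Fin n) (Fin n) F)
    (W : Submodule F V) (h0 : B.det = 0) (z₀ : V) (h1 : (pen B (Cm z₀)).coeff 1 ≠ 0)
    (hW1 : ∀ y ∈ W, (pen B (Cm y)).coeff 1 = 0) (hW2 : ∀ y ∈ W, (pen B (Cm y)).coeff 2 = 0) :
    ∃ K : Submodule F V, K ≤ W ∧ finrank F W + 1 ≤ n + finrank F K ∧
      ∀ y ∈ K, ∀ z ∈ W, ∀ s : F, (pen (B + s • Cm y) (s • Cm z)).coeff 1 = 0 := by
  classical
  obtain ⟨L, L', D, hD⟩ :=
    Matrix.Pivot.exists_list_transvec_mul_mul_list_transvec_eq_diagonal B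
  set P := (L.map Matrix.TransvectionStruct.toMatrix).prod with hPdef
  set Q := (L'.map Matrix.TransvectionStruct.toMatrix).prod with hQdef
  have hP : P.det = 1 := Matrix.TransvectionStruct.det_toMatrix_prod L
  have hQ : Q.det = 1 := Matrix.TransvectionStruct.det_toMatrix_prod L'
  -- the transformed pencil
  let C2 : V →ₗ[F] Matrix (Fin n) (Fin n) F :=
    (LinearMap.mulRight F Q).comp ((LinearMap.mulLeft F P).comp Cm)
  have hC2 : ∀ y, C2 y = P * Cm y * Q := fun y => rfl
  have hpen : ∀ y, pen B (Cm y) = pen (Matrix.diagonal D) (C2 y) := by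
    intro y
    rw [← pen_mul P Q B (Cm y) hP hQ, hD, hC2]
  have hpen2 : ∀ y z (s : F), pen (B + s • Cm y) (s • Cm z) =
      pen (Matrix.diagonal D + s • C2 y) (s • C2 z) := by
    intro y z s
    rw [← pen_mul P Q (B + s • Cm y) (s • Cm z) hP hQ, hC2, hC2, ← hD]
    congr 1
    · rw [mul_add, add_mul, Matrix.mul_smul, Matrix.smul_mul]
    · rw [Matrix.mul_smul, Matrix.smul_mul]
  have hD0 : ∃ i₀, D i₀ = 0 := by
    have := congrArg Matrix.det hD
    rw [Matrix.det_mul, Matrix.det_mul, hP, hQ, h0, one_mul, zero_mul, Matrix.det_diagonal] at this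
    obtain ⟨i, _, hi⟩ := Finset.prod_eq_zero_iff.1 this.symm
    exact ⟨i, hi⟩
  obtain ⟨i₀, hi₀⟩ := hD0
  have entry : ∀ (B' C' : Matrix (Fin n) (Fin n) F) i j,
      (B'.map Polynomial.C + (Polynomial.X : F[X]) • C'.map Polynomial.C) i j =
        Polynomial.C (B' i j) + Polynomial.X * Polynomial.C (C' i j) := fun B' C' i j => rfl
  have hDne : ∀ j, j ≠ i₀ → D j ≠ 0 := by
    intro j hj hj0
    apply h1
    rw [hpen]
    have : (Polynomial.X : F[X]) ^ 2 ∣ pen (Matrix.diagonal D) (C2 z₀) := by
      refine det_two_rows _ i₀ j hj.symm _ (fun k => ?_) (fun k => ?_)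
      · rw [entry]
        have : Matrix.diagonal D i₀ k = 0 := by
          by_cases h : i₀ = k
          · rw [← h, Matrix.diagonal_apply_eq, hi₀]
          · rw [Matrix.diagonal_apply_ne _ h]
        rw [this, map_zero, zero_add]
        exact dvd_mul_right _ _
      · rw [entry]
        have : Matrix.diagonal D j k = 0 := by
          by_cases h : j = k
          · rw [← h, Matrix.diagonal_apply_eq, hj0]
          · rw [Matrix.diagonal_apply_ne _ h]
        rw [this, map_zero, zero_add]
        exact dvd_mul_right _ _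
    obtain ⟨q, hq⟩ := this
    rw [hq, Polynomial.coeff_X_pow_mul']
    simp
  -- the corner entry vanishes on `W`
  have hcorner : ∀ y ∈ W, C2 y i₀ i₀ = 0 := by
    intro y hy
    have h2 := hW1 y hy
    rw [hpen] at h2
    let M' : Matrix (Fin n) (Fin n) F[X] := Matrix.of fun i j =>
      if i = i₀ then Polynomial.C (C2 y i₀ j)
      else Polynomial.C (Matrix.diagonal D i j) + Polynomial.X * Polynomial.C (C2 y i j)
    have h3 : pen (Matrix.diagonal D) (C2 y) = Polynomial.X * M'.det := by
      refine det_row _ M' i₀ _ (fun j => ?_) (fun i j hi => ?_)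
      · rw [entry]
        have : Matrix.diagonal D i₀ j = 0 := by
          by_cases h : i₀ = j
          · rw [← h, Matrix.diagonal_apply_eq, hi₀]
          · rw [Matrix.diagonal_apply_ne _ h]
        rw [this, map_zero, zero_add]
        simp [M']
      · rw [entry]
        simp [M', hi]
    rw [h3, Polynomial.coeff_X_mul, Polynomial.coeff_zero_eq_eval_zero] at h2
    have h4 : (M'.det).eval 0 = (M'.map (Polynomial.eval 0)).det := by
      have := RingHom.map_det (Polynomial.evalRingHom (0 : F)) M'
      rw [Polynomial.coe_evalRingHom] at this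
      exact this
    rw [h4] at h2
    have h5 := row_zero (M'.map (Polynomial.eval 0)) i₀ D hDne (fun i j hi => by
      simp [M', hi, Matrix.diagonal_apply]) h2
    simpa [M'] using h5
  -- the product of the row and the column vanishes on `W`
  have hprod : ∀ y ∈ W, ∑ j : {j // j ≠ i₀}, C2 y i₀ j * (C2 y j i₀ / D j) = 0 := by
    intro y hy
    have h2 := hW2 y hy
    rw [hpen] at h2
    let M' : Matrix (Fin n) (Fin n) F[X] := Matrix.of fun i j =>
      if i = i₀ ∨ j = i₀ then Polynomial.C (C2 y i j)
      else Polynomial.C (Matrix.diagonal D i j) + Polynomial.X * Polynomial.C (C2 y i j)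
    have h3 : pen (Matrix.diagonal D) (C2 y) = Polynomial.X ^ 2 * M'.det := by
      refine det_bordered _ M' i₀ _ ?_ ?_ (fun j hj => ?_) (fun j hj => ?_) (fun i j hi hj => ?_)
      · rw [entry, Matrix.diagonal_apply_eq, hi₀, hcorner y hy]; simp
      · simp [M', hcorner y hy]
      · rw [entry, Matrix.diagonal_apply_ne _ hj.symm]
        simp [M']
      · rw [entry, Matrix.diagonal_apply_ne _ hj]
        simp [M']
      · rw [entry]
        simp [M', hi, hj]
    rw [h3, Polynomial.coeff_X_pow_mul', if_pos le_rfl, Nat.sub_self,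
      Polynomial.coeff_zero_eq_eval_zero] at h2
    have h4 : (M'.det).eval 0 = (M'.map (Polynomial.eval 0)).det := by
      have := RingHom.map_det (Polynomial.evalRingHom (0 : F)) M'
      rw [Polynomial.coe_evalRingHom] at this
      exact this
    rw [h4] at h2
    have h5 := bordered_zero (M'.map (Polynomial.eval 0)) i₀ D hDne
      (by simp [M', hcorner y hy])
      (fun i j hi hj => by simp [M', hi, hj, Matrix.diagonal_apply]) h2
    simpa [M'] using h5
  -- the two linear maps
  let a : W →ₗ[F] ({j // j ≠ i₀} → F) :=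
    { toFun := fun y j => C2 y i₀ j
      map_add' := fun x y => by funext j; simp
      map_smul' := fun c x => by funext j; simp }
  let b : W →ₗ[F] ({j // j ≠ i₀} → F) :=
    { toFun := fun y j => C2 y j i₀ / D j
      map_add' := fun x y => by funext j; simp [add_div]
      map_smul' := fun c x => by funext j; simp [mul_div_assoc] }
  have hab : ∀ y : W, ∑ j, a y j * b y j = 0 := fun y => hprod y y.2
  have hker := common_kernel a b hab
  refine ⟨(LinearMap.ker a ⊓ LinearMap.ker b : Submodule F W).map W.subtype, ?_, ?_, ?_⟩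
  · exact Submodule.map_subtype_le _ _
  · rw [← (Submodule.equivMapOfInjective W.subtype (Submodule.subtype_injective _)
      (LinearMap.ker a ⊓ LinearMap.ker b : Submodule F W)).finrank_eq]
    have hcard : Fintype.card {j : Fin n // j ≠ i₀} = n - 1 := by
      rw [Fintype.card_subtype_compl, Fintype.card_fin, Fintype.card_subtype_eq]
    have hn : 0 < n := Fin.pos i₀
    rw [hcard] at hker
    omega
  · rintro _ ⟨⟨y, hyW⟩, ⟨hya, hyb⟩, rfl⟩ z hz s
    have hya' : ∀ j, j ≠ i₀ → C2 y i₀ j = 0 := by
      intro j hj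
      have := congrFun (LinearMap.mem_ker.1 hya) ⟨j, hj⟩
      exact this
    have hyb' : ∀ j, j ≠ i₀ → C2 y j i₀ = 0 := by
      intro j hj
      have := congrFun (LinearMap.mem_ker.1 hyb) ⟨j, hj⟩
      have h2 : C2 y j i₀ / D j = 0 := this
      rcases div_eq_zero_iff.1 h2 with h | h
      · exact h
      · exact absurd h (hDne j hj)
    change (pen (B + s • Cm y) (s • Cm z)).coeff 1 = 0
    rw [hpen2]
    let M' : Matrix (Fin n) (Fin n) F[X] := Matrix.of fun i j =>
      if i = i₀ ∨ j = i₀ then Polynomial.C (s * C2 z i j)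
      else Polynomial.C ((Matrix.diagonal D + s • C2 y) i j) +
        Polynomial.X * Polynomial.C ((s • C2 z) i j)
    have h3 : pen (Matrix.diagonal D + s • C2 y) (s • C2 z) = Polynomial.X ^ 2 * M'.det := by
      refine det_bordered _ M' i₀ _ ?_ ?_ (fun j hj => ?_) (fun j hj => ?_) (fun i j hi hj => ?_)
      · rw [entry, Matrix.add_apply, Matrix.diagonal_apply_eq, hi₀, Matrix.smul_apply,
          Matrix.smul_apply, hcorner y hyW, hcorner z hz]; simp
      · simp [M', hcorner z hz]
      · rw [entry, Matrix.add_apply, Matrix.diagonal_apply_ne _ hj.symm, Matrix.smul_apply,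
          hya' j hj]
        simp [M']
      · rw [entry, Matrix.add_apply, Matrix.diagonal_apply_ne _ hj, Matrix.smul_apply,
          hyb' j hj]
        simp [M']
      · rw [entry]
        simp [M', hi, hj]
    rw [h3, Polynomial.coeff_X_pow_mul']
    simp

end Pencil

end Pool.Agent.L5helper42.DC.Det
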