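import Mathlib
import Pool.Agent.L5helper42.DC.Coeff
import Pool.Agent.L5helper42.DC.Det

/-!
# Determinantal complexity of the permanent: leading constant one
-/

namespace Pool.Agent.L5helper42.DC.Main

open Module Finset
open Pool.Agent.L5helper42.DC.Perm Pool.Agent.L5helper42.DC.Det

/-! ### Linear algebra -/

section Support

variable {F : Type*} [Field F] [Infinite F]

/-- In a finite union of proper subspaces over an infinite field an element is missing. -/
theorem exists_notMem {M : Type*} [AddCommGroup M] [Module F M] {α : Type*} [Fintype α]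
    (p : α → Submodule F M) (hp : ∀ a, p a ≠ ⊤) : ∃ x : M, ∀ a, x ∉ p a := by
  have h := Submodule.iUnion_ssubset_of_forall_ne_top_of_card_lt (K := F) (M := M) Finset.univ p hp
    (by rw [ENat.card_eq_top_of_infinite]; exact ENat.natCast_lt_top _)
  obtain ⟨x, hx⟩ := Set.exists_of_ssubset h
  exact ⟨x, fun a ha => hx.2 (by simp only [Set.mem_iUnion]; exact ⟨a, Finset.mem_univ a, ha⟩)⟩

/-- A subspace whose coordinatewise products lie in `U` has dimension at most that of `U`. -/
theorem finrank_le_of_mul {ι : Type*} [Fintype ι] (Y U : Submodule F (ι → F))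
    (h : ∀ f ∈ Y, ∀ g ∈ Y, f * g ∈ U) : finrank F Y ≤ finrank F U := by
  classical
  let q : ι → Submodule F Y := fun i => LinearMap.ker ((LinearMap.proj i).comp Y.subtype)
  obtain ⟨f, hf⟩ := exists_notMem (fun i : {i // q i ≠ ⊤} => q i) (fun i => i.2)
  have key : ∀ i, (f : ι → F) i = 0 → ∀ g : Y, (g : ι → F) i = 0 := by
    intro i hi g
    by_cases hq : q i = ⊤
    · have : g ∈ q i := hq ▸ Submodule.mem_top
      simpa [q] using this
    · exact absurd (by simpa [q] using hi) (hf ⟨i, hq⟩)
  let φ : Y →ₗ[F] U :=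
    { toFun := fun g => ⟨(f : ι → F) * g, h f f.2 g g.2⟩
      map_add' := fun a b => by ext i; simp [mul_add]
      map_smul' := fun c a => by ext i; simp [mul_left_comm] }
  refine LinearMap.finrank_le_finrank_of_injective (f := φ) ?_
  rw [← LinearMap.ker_eq_bot, LinearMap.ker_eq_bot']
  intro g hg
  have hg' : ∀ i, (f : ι → F) i * (g : ι → F) i = 0 := fun i => by
    have := congrArg (fun u : U => (u : ι → F) i) hg
    simpa [φ] using this
  ext i
  rcases mul_eq_zero.1 (hg' i) with h0 | h0
  · exact key i h0 g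
  · exact h0

end Support

section Rect

variable {F : Type*} [Field F]

/-- The functions of the form `α k + β l`. -/
def U (F : Type*) [Field F] (N : ℕ) : Submodule F (Fin (N + 1) × Fin (N + 1) → F) where
  carrier := {u | ∀ k l, u (k, l) - u (k, 0) - u (0, l) + u (0, 0) = 0}
  add_mem' := by
    intro a b ha hb k l
    rw [Set.mem_ofPred_eq] at ha hb
    simp only [Pi.add_apply]
    linear_combination ha k l + hb k l
  zero_mem' := by intro k l; simp
  smul_mem' := by
    intro c a ha k l
    rw [Set.mem_ofPred_eq] at ha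
    simp only [Pi.smul_apply, smul_eq_mul]
    linear_combination c * ha k l

theorem finrank_U (N : ℕ) : finrank F (U F N) ≤ 2 * N + 1 := by
  let φ : U F N →ₗ[F] ((Fin (N + 1) → F) × (Fin N → F)) :=
    { toFun := fun u => (fun k => (u : Fin (N + 1) × Fin (N + 1) → F) (k, 0),
        fun l => (u : Fin (N + 1) × Fin (N + 1) → F) (0, l.succ))
      map_add' := fun a b => by ext <;> simp
      map_smul' := fun c a => by ext <;> simp }
  have h := LinearMap.finrank_le_finrank_of_injective (f := φ) (by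
    rw [← LinearMap.ker_eq_bot, LinearMap.ker_eq_bot']
    rintro ⟨u, hu⟩ h
    have h1 : ∀ k, u (k, 0) = 0 := fun k => congrFun (congrArg Prod.fst h) k
    have h2 : ∀ l, u (0, l) = 0 := by
      intro l
      refine Fin.cases (h1 0) (fun l' => congrFun (congrArg Prod.snd h) l') l
    ext ⟨k, l⟩
    have := hu k l
    rw [h1, h2, h1] at this
    simpa using this)
  rw [Module.finrank_prod, Module.finrank_fintype_fun_eq_card, Module.finrank_fintype_fun_eq_card,
    Fintype.card_fin, Fintype.card_fin] at h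
  omega

end Rect

/-! ### The derivative of the cubic form -/

section Cubic

open Polynomial

variable {F : Type*} [Field F] {β : Type*} [Fintype β]

/-- The line through `y` in direction `z`. -/
noncomputable def line (y z : Matrix β β F) : Matrix β β F[X] :=
  y.map Polynomial.C + (Polynomial.X : F[X]) • z.map Polynomial.C

omit [Fintype β] in
theorem line_apply (y z : Matrix β β F) (r c : β) :
    line y z r c = Polynomial.C (y r c) + Polynomial.X * Polynomial.C (z r c) := rfl

theorem coeff_G (y z : Matrix β β F) (hy : ∑ c, ∑ r, y r c = 0)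
    (hr : ∀ r, ∑ c, z r c = 0) (hc : ∀ c, ∑ r, z r c = 0) :
    (Perm.G (line y z)).coeff 1 = ∑ r, ∑ c, z r c * (12 * y r c ^ 2
      - 12 * ((∑ j, y r j) + ∑ i, y i c) * y r c + 6 * (∑ j, y r j) * ∑ i, y i c) := by
  have hcol : ∀ c, ∑ r, line y z r c = Polynomial.C (∑ r, y r c) := by
    intro c
    simp only [line_apply, sum_add_distrib, ← mul_sum, ← map_sum, hc, map_zero, mul_zero, add_zero]
  have hrow : ∀ r, ∑ c, line y z r c = Polynomial.C (∑ c, y r c) := by
    intro r
    simp only [line_apply, sum_add_distrib, ← mul_sum, ← map_sum, hr, map_zero, mul_zero, add_zero]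
  have htot : ∑ c, ∑ r, line y z r c = 0 := by
    simp only [hcol, ← map_sum, hy, map_zero]
  have c0 : ∀ r c, (line y z r c).coeff 0 = y r c := by
    intro r c; simp [line_apply]
  have c1 : ∀ r c, (line y z r c).coeff 1 = z r c := by
    intro r c; simp [line_apply]
  have s1 : ∀ r c, ((line y z r c) ^ 2).coeff 1 = 2 * (y r c * z r c) := by
    intro r c
    rw [pow_two, Polynomial.mul_coeff_one, c0, c1]
    ring
  have s0 : ∀ r c, ((line y z r c) ^ 2).coeff 0 = y r c ^ 2 := by
    intro r c
    rw [pow_two, Polynomial.mul_coeff_zero, c0]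
    ring
  have t1 : ∀ r c, ((line y z r c) ^ 3).coeff 1 = 3 * (y r c ^ 2 * z r c) := by
    intro r c
    rw [pow_succ, Polynomial.mul_coeff_one, s0, s1, c0, c1]
    ring
  have d1 : ∀ r c, ((Polynomial.C (∑ j, y r j) - line y z r c) ^ 2).coeff 1 =
      - 2 * ((∑ j, y r j) - y r c) * z r c := by
    intro r c
    rw [pow_two, Polynomial.mul_coeff_one, Polynomial.coeff_sub, Polynomial.coeff_sub, c0, c1,
      Polynomial.coeff_C_zero, Polynomial.coeff_C_succ]
    ring
  have k3 : ∀ (a : F), ((Polynomial.C a) ^ 3 : F[X]).coeff 1 = 0 := by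
    intro a
    rw [← map_pow, Polynomial.coeff_C_succ]
  have n2 : ∀ p : F[X], (2 * p).coeff 1 = 2 * p.coeff 1 := fun p => by
    have : (2 : F[X]) = Polynomial.C 2 := rfl
    rw [this, Polynomial.coeff_C_mul]
  have n3 : ∀ p : F[X], (3 * p).coeff 1 = 3 * p.coeff 1 := fun p => by
    have : (3 : F[X]) = Polynomial.C 3 := rfl
    rw [this, Polynomial.coeff_C_mul]
  have e1 : (∑ c, (∑ r, line y z r c) ^ 3).coeff 1 = 0 := by
    rw [Polynomial.finsetSum_coeff]
    refine sum_eq_zero fun c _ => ?_
    rw [hcol, k3]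
  have e2 : (∑ c, (∑ r, line y z r c) *
      ∑ r, (((∑ j, line y z r j) - line y z r c) ^ 2 -
        ((∑ j, line y z r j ^ 2) - line y z r c ^ 2))).coeff 1 =
      ∑ c, (∑ r, y r c) * ∑ r, (- 2 * ((∑ j, y r j) - y r c) * z r c -
        ((∑ j, 2 * (y r j * z r j)) - 2 * (y r c * z r c))) := by
    rw [Polynomial.finsetSum_coeff]
    refine sum_congr rfl fun c _ => ?_
    rw [hcol, Polynomial.coeff_C_mul, Polynomial.finsetSum_coeff]
    congr 1
    refine sum_congr rfl fun r _ => ?_
    rw [Polynomial.coeff_sub, Polynomial.coeff_sub, hrow, d1, s1, Polynomial.finsetSum_coeff]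
    simp only [s1]
  have e3 : (∑ r, ((∑ c, line y z r c) ^ 3 - 3 * (∑ c, line y z r c) *
      (∑ c, line y z r c ^ 2) + 2 * ∑ c, line y z r c ^ 3)).coeff 1 =
      ∑ r, (- 3 * ((∑ c, y r c) * ∑ c, 2 * (y r c * z r c)) +
        2 * ∑ c, 3 * (y r c ^ 2 * z r c)) := by
    rw [Polynomial.finsetSum_coeff]
    refine sum_congr rfl fun r _ => ?_
    rw [Polynomial.coeff_add, Polynomial.coeff_sub, hrow, k3, n2, mul_assoc, n3,
      Polynomial.coeff_C_mul, Polynomial.finsetSum_coeff, Polynomial.finsetSum_coeff]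
    simp only [s1, t1]
    ring
  have e4 : ∑ c, (∑ r, y r c) * ∑ r, (- 2 * ((∑ j, y r j) - y r c) * z r c -
        ((∑ j, 2 * (y r j * z r j)) - 2 * (y r c * z r c))) =
      ∑ r, ∑ c, (∑ i, y i c) * (- 2 * (∑ j, y r j) + 4 * y r c) * z r c := by
    have h1 : ∀ c, (∑ r, y r c) * ∑ r, (- 2 * ((∑ j, y r j) - y r c) * z r c -
        ((∑ j, 2 * (y r j * z r j)) - 2 * (y r c * z r c))) =
        (∑ r, (∑ i, y i c) * (- 2 * (∑ j, y r j) + 4 * y r c) * z r c) -
        (∑ r, y r c) * ∑ r, ∑ j, 2 * (y r j * z r j) := by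
      intro c
      have h2 : ∀ r ∈ (univ : Finset β), (- 2 * ((∑ j, y r j) - y r c) * z r c -
        ((∑ j, 2 * (y r j * z r j)) - 2 * (y r c * z r c))) =
        (- 2 * (∑ j, y r j) + 4 * y r c) * z r c - ∑ j, 2 * (y r j * z r j) := by
        intro r _
        ring
      rw [sum_congr rfl h2, sum_sub_distrib, mul_sub]
      congr 1
      rw [mul_sum]
      refine sum_congr rfl fun r _ => ?_
      ring
    rw [sum_congr rfl fun c _ => h1 c, sum_sub_distrib, ← sum_mul, hy, zero_mul, sub_zero, sum_comm]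
  have hz : (0 ^ 3 - 3 * 0 * ∑ c, (∑ r, line y z r c) ^ 2 : F[X]) = 0 := by ring
  rw [Perm.G, htot, hz]
  rw [Polynomial.coeff_add, Polynomial.coeff_sub, Polynomial.coeff_add, n2, n2, n3, e1, e2, e3, e4,
    Polynomial.coeff_zero, mul_zero, add_zero, zero_sub, mul_sum, mul_sum, ← sum_neg_distrib,
    ← sum_add_distrib]
  have key : ∀ (g Z Y : β → F) (R : F), - (3 * ∑ c, g c * (-2 * R + 4 * Y c) * Z c) +
      2 * (-3 * (R * ∑ c, 2 * (Y c * Z c)) + 2 * ∑ c, 3 * (Y c ^ 2 * Z c)) =
      ∑ c, Z c * (12 * Y c ^ 2 - 12 * (R + g c) * Y c + 6 * R * g c) := by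
    intro g Z Y R
    simp only [mul_sum, mul_add, ← sum_neg_distrib, ← sum_add_distrib]
    refine sum_congr rfl fun c _ => ?_
    ring
  refine sum_congr rfl fun r _ => ?_
  exact key (fun c => ∑ i, y i c) (fun c => z r c) (fun c => y r c) (∑ j, y r j)

end Cubic

/-! ### The embedding of the big block -/

section Emb

variable {R : Type*} [CommRing R] {M : ℕ}

/-- A matrix of the big block, extended by zero. -/
def emb (y : Matrix (Fin M) (Fin M) R) : Matrix (Fin (M + 2)) (Fin (M + 2)) R :=
  Matrix.of fun i j => Fin.cases (motive := fun _ => R) 0 (fun i1 =>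
    Fin.cases (motive := fun _ => R) 0 (fun i2 =>
      Fin.cases (motive := fun _ => R) 0 (fun j1 =>
        Fin.cases (motive := fun _ => R) 0 (fun j2 => y i2 j2) j1) j) i1) i

theorem sum2 (f : Fin (M + 2) → R) : ∑ i, f i = f 0 + (f 1 + ∑ i : Fin M, f i.succ.succ) := by
  rw [Fin.sum_univ_succ, Fin.sum_univ_succ]
  rfl

theorem emb_ss (y : Matrix (Fin M) (Fin M) R) (i j : Fin M) :
    emb y i.succ.succ j.succ.succ = y i j := rfl

theorem emb_r0 (y : Matrix (Fin M) (Fin M) R) (j : Fin (M + 2)) : emb y 0 j = 0 := rfl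

theorem emb_r1 (y : Matrix (Fin M) (Fin M) R) (j : Fin (M + 2)) : emb y 1 j = 0 := rfl

theorem emb_c0 (y : Matrix (Fin M) (Fin M) R) (i : Fin (M + 2)) : emb y i 0 = 0 := by
  refine Fin.cases rfl (fun i1 => ?_) i
  exact Fin.cases rfl (fun i2 => rfl) i1

theorem emb_c1 (y : Matrix (Fin M) (Fin M) R) (i : Fin (M + 2)) : emb y i 1 = 0 := by
  refine Fin.cases rfl (fun i1 => ?_) i
  exact Fin.cases rfl (fun i2 => rfl) i1

/-- A column with two special entries. -/
def bvec (M : ℕ) (a₀ a₁ : R) : Fin (M + 2) → R := fun i =>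
  Fin.cases (motive := fun _ => R) a₀ (fun i1 => Fin.cases (motive := fun _ => R) a₁
    (fun _ => 1) i1) i

theorem bvec_0 (a₀ a₁ : R) : bvec M a₀ a₁ 0 = a₀ := rfl

theorem bvec_1 (a₀ a₁ : R) : bvec M a₀ a₁ 1 = a₁ := rfl

theorem bvec_ss (a₀ a₁ : R) (i : Fin M) : bvec M a₀ a₁ i.succ.succ = 1 := rfl

/-- The first special column. -/
def B1 (R : Type*) [CommRing R] (M : ℕ) : Fin (M + 2) → R :=
  bvec M (((M : R) + 2) ^ 2 - 2 * ((M : R) + 2) + 4) (- ((M : R) + 2) ^ 2 - 2)

/-- The second special column. -/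
def B2 (R : Type*) [CommRing R] (M : ℕ) : Fin (M + 2) → R := bvec M 2 3

theorem hyp (y : Matrix (Fin M) (Fin M) R) : Hyp (B1 R M) (B2 R M) 0 1 (emb y) where
  ne := by
    rw [← Fin.succ_zero_eq_one]
    exact (Fin.succ_ne_zero _).symm
  kap := by
    intro k
    simp only [sum2, B1, B2, bvec_0, bvec_1, bvec_ss, sum_const, card_univ, Fintype.card_fin,
      nsmul_eq_mul, mul_one]
    ring
  h₁ := by
    intro r c
    refine Fin.cases (by rw [emb_r0, zero_mul]) (fun i1 => ?_) r
    refine Fin.cases ?_ (fun i2 => ?_) i1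
    · change emb y 1 c * _ = emb y 1 c
      rw [emb_r1, zero_mul]
    · rw [B1, bvec_ss, mul_one]
  h₂ := by
    intro r c
    refine Fin.cases (by rw [emb_r0, zero_mul]) (fun i1 => ?_) r
    refine Fin.cases ?_ (fun i2 => ?_) i1
    · change emb y 1 c * _ = emb y 1 c
      rw [emb_r1, zero_mul]
    · rw [B2, bvec_ss, mul_one]
  c₁ := emb_c0 y
  c₂ := emb_c1 y

theorem sum_row (y : Matrix (Fin M) (Fin M) R) (i : Fin M) :
    ∑ j, emb y i.succ.succ j = ∑ j, y i j := by
  rw [sum2, emb_c0, emb_c1, zero_add, zero_add]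
  rfl

theorem G_emb (y : Matrix (Fin M) (Fin M) R) : Perm.G (emb y) = Perm.G y := by
  have hc : ∀ j : Fin M, ∑ i, emb y i j.succ.succ = ∑ i, y i j := by
    intro j
    rw [sum2, emb_r0, emb_r1, zero_add, zero_add]
    rfl
  have hr0 : ∑ j, emb y 0 j = 0 := sum_eq_zero fun j _ => emb_r0 y j
  have hr1 : ∑ j, emb y 1 j = 0 := sum_eq_zero fun j _ => emb_r1 y j
  have hc0 : ∑ i, emb y i 0 = 0 := sum_eq_zero fun j _ => emb_c0 y j
  have hc1 : ∑ i, emb y i 1 = 0 := sum_eq_zero fun j _ => emb_c1 y j
  have htot : ∑ c, ∑ r, emb y r c = ∑ c, ∑ r, y r c := by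
    rw [sum2, hc0, hc1, zero_add, zero_add]
    exact sum_congr rfl fun c _ => hc c
  have h2 : ∑ c, (∑ r, emb y r c) ^ 2 = ∑ c, (∑ r, y r c) ^ 2 := by
    rw [sum2, hc0, hc1]
    simp only [hc]
    ring
  have h3 : ∑ c, (∑ r, emb y r c) ^ 3 = ∑ c, (∑ r, y r c) ^ 3 := by
    rw [sum2, hc0, hc1]
    simp only [hc]
    ring
  have hq : ∀ i : Fin M, ∑ j, emb y i.succ.succ j ^ 2 = ∑ j, y i j ^ 2 := by
    intro i
    rw [sum2, emb_c0, emb_c1]
    simp only [emb_ss]
    ring
  have hk : ∀ i : Fin M, ∑ j, emb y i.succ.succ j ^ 3 = ∑ j, y i j ^ 3 := by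
    intro i
    rw [sum2, emb_c0, emb_c1]
    simp only [emb_ss]
    ring
  have h4 : ∑ c, (∑ r, emb y r c) *
      ∑ r, (((∑ j, emb y r j) - emb y r c) ^ 2 - ((∑ j, emb y r j ^ 2) - emb y r c ^ 2)) =
      ∑ c, (∑ r, y r c) *
        ∑ r, (((∑ j, y r j) - y r c) ^ 2 - ((∑ j, y r j ^ 2) - y r c ^ 2)) := by
    rw [sum2, hc0, hc1, zero_mul, zero_mul, zero_add, zero_add]
    refine sum_congr rfl fun c _ => ?_
    rw [hc, sum2]
    simp only [emb_r0, emb_r1, emb_ss, sum_row, hq]
    simp
  have h5 : ∑ r, ((∑ c, emb y r c) ^ 3 - 3 * (∑ c, emb y r c) * (∑ c, emb y r c ^ 2) +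
      2 * ∑ c, emb y r c ^ 3) =
      ∑ r, ((∑ c, y r c) ^ 3 - 3 * (∑ c, y r c) * (∑ c, y r c ^ 2) + 2 * ∑ c, y r c ^ 3) := by
    rw [sum2]
    simp only [emb_r0, emb_r1, sum_row, hq, hk]
    simp
  rw [Perm.G, Perm.G, htot, h2, h3, h4, h5]

end Emb

/-! ### Affine polynomials -/

section Eval

variable {F : Type*} [Field F] {σ : Type*} [Fintype σ]

omit [Fintype σ] in
theorem deg_le_one (d : σ →₀ ℕ) (hd : d.degree ≤ 1) : d = 0 ∨ ∃ i, d = Finsupp.single i 1 := by
  by_cases h : d = 0
  · exact Or.inl h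
  · right
    obtain ⟨i, hi⟩ := Finsupp.ne_iff.1 h
    refine ⟨i, ?_⟩
    have hle : Finsupp.single i 1 ≤ d := by
      rw [Finsupp.single_le_iff]
      exact Nat.one_le_iff_ne_zero.2 hi
    have h1 : Finsupp.single i 1 + (d - Finsupp.single i 1) = d := add_tsub_cancel_of_le hle
    have h2 : (d - Finsupp.single i 1).degree = 0 := by
      have := congrArg Finsupp.degree h1
      rw [map_add, Finsupp.degree_single] at this
      omega
    rw [Finsupp.degree_eq_zero_iff] at h2
    rw [h2, add_zero] at h1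
    exact h1.symm

/-- The linear part of a polynomial, as a linear form. -/
noncomputable def lin (p : MvPolynomial σ F) : (σ → F) →ₗ[F] F :=
  ∑ i, MvPolynomial.coeff (Finsupp.single i 1) p • LinearMap.proj i

theorem lin_apply (p : MvPolynomial σ F) (w : σ → F) :
    lin p w = ∑ i, MvPolynomial.coeff (Finsupp.single i 1) p * w i := by
  simp [lin]

theorem affine_eq (p : MvPolynomial σ F) (hp : p.totalDegree ≤ 1) :
    p = MvPolynomial.C (MvPolynomial.coeff 0 p) +
      ∑ i, MvPolynomial.C (MvPolynomial.coeff (Finsupp.single i 1) p) * MvPolynomial.X i := by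
  classical
  ext d
  rw [MvPolynomial.coeff_add, MvPolynomial.coeff_C, MvPolynomial.coeff_sum]
  simp only [MvPolynomial.coeff_C_mul, MvPolynomial.coeff_X]
  by_cases hd : d.degree ≤ 1
  · rcases deg_le_one d hd with rfl | ⟨i, rfl⟩
    · rw [if_pos rfl, sum_eq_zero, add_zero]
      intro i _
      rw [if_neg (by simp), mul_zero]
    · rw [if_neg (by
        intro h
        have := congrArg (fun f => f i) h
        simp at this), zero_add, sum_eq_single i]
      · rw [if_pos rfl, mul_one]
      · intro j _ hj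
        rw [if_neg (fun h => hj (Finsupp.single_left_injective one_ne_zero h)), mul_zero]
      · intro h
        exact absurd (mem_univ i) h
  · have h1 : MvPolynomial.coeff d p = 0 := by
      by_contra h
      have := MvPolynomial.le_totalDegree (MvPolynomial.mem_support_iff.2 h)
      apply hd
      refine le_trans ?_ (this.trans hp)
      rw [Finsupp.degree_apply]
      exact le_rfl
    rw [h1, if_neg, sum_eq_zero, add_zero]
    · intro i _
      rw [if_neg, mul_zero]
      rintro rfl
      apply hd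
      rw [Finsupp.degree_single]
    · rintro rfl
      apply hd
      simp

theorem eval_affine (p : MvPolynomial σ F) (hp : p.totalDegree ≤ 1) (x : σ → F) :
    MvPolynomial.eval x p = MvPolynomial.coeff 0 p + lin p x := by
  conv_lhs => rw [affine_eq p hp]
  rw [lin_apply]
  simp

theorem eval_add (p : MvPolynomial σ F) (hp : p.totalDegree ≤ 1) (x w : σ → F) :
    MvPolynomial.eval (x + w) p = MvPolynomial.eval x p + lin p w := by
  rw [eval_affine p hp, eval_affine p hp, map_add, add_assoc]

theorem aeval_line (p : MvPolynomial σ F) (hp : p.totalDegree ≤ 1) (x w : σ → F) :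
    MvPolynomial.aeval (fun v => Polynomial.C (x v) + Polynomial.X * Polynomial.C (w v)) p =
      Polynomial.C (MvPolynomial.eval x p) + Polynomial.X * Polynomial.C (lin p w) := by
  rw [eval_affine p hp, lin_apply, lin_apply]
  conv_lhs => rw [affine_eq p hp]
  rw [map_add, map_sum, MvPolynomial.aeval_C]
  simp only [map_mul, MvPolynomial.aeval_C, MvPolynomial.aeval_X, map_add, map_sum]
  rw [mul_sum, add_assoc, ← sum_add_distrib]
  congr 1
  refine sum_congr rfl fun i _ => ?_
  change Polynomial.C _ * _ = _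
  ring

/-- The pencil of an affine matrix on a line is the restriction of the determinant. -/
theorem pen_eq {n : ℕ} (A : Matrix (Fin n) (Fin n) (MvPolynomial σ F))
    (hA : ∀ i j, (A i j).totalDegree ≤ 1) (x w : σ → F) :
    pen (A.map (MvPolynomial.eval x)) (Matrix.of fun i j => lin (A i j) w) =
      MvPolynomial.aeval (fun v => Polynomial.C (x v) + Polynomial.X * Polynomial.C (w v))
        A.det := by
  have h1 := AlgHom.map_det (MvPolynomial.aeval (R := F)
    (fun v => Polynomial.C (x v) + Polynomial.X * Polynomial.C (w v))) A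
  rw [h1, pen]
  congr 1
  ext1 i j
  change _ = MvPolynomial.aeval _ (A i j)
  rw [aeval_line _ (hA i j)]
  rfl

end Eval

section Perm

variable {F : Type*} [Field F] {M : ℕ}

/-- The permanent as a polynomial. -/
noncomputable def permPoly (F : Type*) [Field F] (m : ℕ) : MvPolynomial (Fin m × Fin m) F :=
  (Matrix.of fun i j : Fin m => (MvPolynomial.X (i, j) : MvPolynomial (Fin m × Fin m) F)).permanent

theorem aeval_permPoly {R : Type*} [CommRing R] [Algebra F R] (m : ℕ)
    (x : Fin m × Fin m → R) :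
    MvPolynomial.aeval x (permPoly F m) = (Matrix.of fun i j => x (i, j)).permanent := by
  simp [permPoly, Matrix.permanent, map_sum, map_prod]

theorem base_map (i j : Fin (M + 2)) :
    (base (B1 (Polynomial F) M) (B2 (Polynomial F) M) 0 1) i j =
      Polynomial.C ((base (B1 F M) (B2 F M) 0 1) i j) := by
  have c2 : (Polynomial.C (2 : F)) = 2 := rfl
  have c3 : (Polynomial.C (3 : F)) = 3 := rfl
  have c4 : (Polynomial.C (4 : F)) = 4 := rfl
  have h1 : ∀ i, B1 (Polynomial F) M i = Polynomial.C (B1 F M i) := by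
    intro i
    refine Fin.cases ?_ (fun i1 => ?_) i
    · change (((M : Polynomial F) + 2) ^ 2 - 2 * ((M : Polynomial F) + 2) + 4) =
        Polynomial.C (((M : F) + 2) ^ 2 - 2 * ((M : F) + 2) + 4)
      simp only [map_add, map_sub, map_mul, map_pow, map_natCast, c2, c4]
    · refine Fin.cases ?_ (fun i2 => ?_) i1
      · change (- ((M : Polynomial F) + 2) ^ 2 - 2) = Polynomial.C (- ((M : F) + 2) ^ 2 - 2)
        simp only [map_add, map_sub, map_neg, map_pow, map_natCast, c2]
      · change (1 : Polynomial F) = Polynomial.C 1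
        simp
  have h2 : ∀ i, B2 (Polynomial F) M i = Polynomial.C (B2 F M i) := by
    intro i
    refine Fin.cases ?_ (fun i1 => ?_) i
    · exact c2.symm
    · refine Fin.cases ?_ (fun i2 => ?_) i1
      · exact c3.symm
      · change (1 : Polynomial F) = Polynomial.C 1
        simp
  simp only [base, Matrix.of_apply]
  split_ifs
  · exact h1 i
  · exact h2 i
  · simp

theorem emb_map (y z : Matrix (Fin M) (Fin M) F) (i j : Fin (M + 2)) :
    emb (line y z) i j = Polynomial.C (emb y i j) + Polynomial.X * Polynomial.C (emb z i j) := by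
  refine Fin.cases ?_ (fun i1 => ?_) i
  · rw [emb_r0, emb_r0, emb_r0]; simp
  · refine Fin.cases ?_ (fun i2 => ?_) i1
    · change emb (line y z) 1 j = Polynomial.C (emb y 1 j) + Polynomial.X * Polynomial.C (emb z 1 j)
      rw [emb_r1, emb_r1, emb_r1]; simp
    · refine Fin.cases ?_ (fun j1 => ?_) j
      · rw [emb_c0, emb_c0, emb_c0]; simp
      · refine Fin.cases ?_ (fun j2 => ?_) j1
        · change emb (line y z) _ 1 = Polynomial.C (emb y _ 1) +
            Polynomial.X * Polynomial.C (emb z _ 1)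
          rw [emb_c1, emb_c1, emb_c1]; simp
        · rfl

end Perm

/-! ### The main theorem -/

section Final

variable {F : Type*} [Field F] {M : ℕ}

theorem emb_add (y z : Matrix (Fin M) (Fin M) F) (i j : Fin (M + 2)) :
    emb (y + z) i j = emb y i j + emb z i j := by
  refine Fin.cases ?_ (fun i1 => ?_) i
  · rw [emb_r0, emb_r0, emb_r0, add_zero]
  · refine Fin.cases ?_ (fun i2 => ?_) i1
    · change emb (y + z) 1 j = emb y 1 j + emb z 1 j
      rw [emb_r1, emb_r1, emb_r1, add_zero]
    · refine Fin.cases ?_ (fun j1 => ?_) j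
      · rw [emb_c0, emb_c0, emb_c0, add_zero]
      · refine Fin.cases ?_ (fun j2 => ?_) j1
        · change emb (y + z) _ 1 = emb y _ 1 + emb z _ 1
          rw [emb_c1, emb_c1, emb_c1, add_zero]
        · rfl

theorem emb_smul (s : F) (y : Matrix (Fin M) (Fin M) F) (i j : Fin (M + 2)) :
    emb (s • y) i j = s * emb y i j := by
  refine Fin.cases ?_ (fun i1 => ?_) i
  · rw [emb_r0, emb_r0, mul_zero]
  · refine Fin.cases ?_ (fun i2 => ?_) i1
    · change emb (s • y) 1 j = s * emb y 1 j
      rw [emb_r1, emb_r1, mul_zero]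
    · refine Fin.cases ?_ (fun j1 => ?_) j
      · rw [emb_c0, emb_c0, mul_zero]
      · refine Fin.cases ?_ (fun j2 => ?_) j1
        · change emb (s • y) _ 1 = s * emb y _ 1
          rw [emb_c1, emb_c1, mul_zero]
        · rfl

/-- The base point. -/
noncomputable def x₀ (F : Type*) [Field F] (M : ℕ) : Fin (M + 2) × Fin (M + 2) → F :=
  fun v => base (B1 F M) (B2 F M) 0 1 v.1 v.2

/-- The embedding as a linear map. -/
noncomputable def embL : Matrix (Fin M) (Fin M) F →ₗ[F] (Fin (M + 2) × Fin (M + 2) → F) where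
  toFun y v := emb y v.1 v.2
  map_add' y z := by funext v; exact emb_add y z v.1 v.2
  map_smul' s y := by funext v; exact emb_smul s y v.1 v.2

theorem Fk_map {α : Type*} [Fintype α] [DecidableEq α] {R S : Type*} [CommRing R] [CommRing S]
    (φ : R →+* S) (b₁ b₂ : α → R) (o₁ o₂ : α) (y : Matrix α α R) (k : ℕ) :
    Fk (fun i => φ (b₁ i)) (fun i => φ (b₂ i)) o₁ o₂ (y.map φ) k = φ (Fk b₁ b₂ o₁ o₂ y k) := by
  simp [Fk, E, map_sum, map_prod]

theorem B_map : B1 (Polynomial F) M = (fun i => Polynomial.C (B1 F M i)) ∧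
    B2 (Polynomial F) M = (fun i => Polynomial.C (B2 F M i)) := by
  have h01 : (0 : Fin (M + 2)) ≠ 1 := (hyp (R := F) (0 : Matrix (Fin M) (Fin M) F)).ne
  constructor
  · funext i
    have := base_map (F := F) i 0
    simpa [base] using this
  · funext i
    have := base_map (F := F) i 1
    simpa [base, h01.symm] using this

/-- The restriction of the permanent to a line through the base point. -/
theorem line_one (y : Matrix (Fin M) (Fin M) F) :
    MvPolynomial.aeval (fun v => Polynomial.C (x₀ F M v) +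
      Polynomial.X * Polynomial.C (embL y v)) (permPoly F (M + 2)) =
      ∑ k ∈ range (M + 3), Polynomial.C (Fk (B1 F M) (B2 F M) 0 1 (emb y) k) *
        Polynomial.X ^ k := by
  have H := hyp (line y (0 : Matrix (Fin M) (Fin M) F))
  have h1 := expansion (B1 (Polynomial F) M) (B2 (Polynomial F) M) 0 1 H.ne _ H.c₁ H.c₂
    (Polynomial.X : Polynomial F)
  have h2 : base (B1 (Polynomial F) M) (B2 (Polynomial F) M) 0 1 +
      (Polynomial.X : Polynomial F) • emb (line y 0) =
      Matrix.of fun i j => Polynomial.C (x₀ F M (i, j)) +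
        Polynomial.X * Polynomial.C (embL y (i, j)) := by
    ext1 i j
    change base (B1 (Polynomial F) M) (B2 (Polynomial F) M) 0 1 i j +
      Polynomial.X * emb (line y 0) i j = Polynomial.C (base (B1 F M) (B2 F M) 0 1 i j) +
        Polynomial.X * Polynomial.C (emb y i j)
    rw [base_map, emb_map]
    have : emb (0 : Matrix (Fin M) (Fin M) F) i j = 0 := by
      have := emb_smul (0 : F) (0 : Matrix (Fin M) (Fin M) F) i j
      rwa [zero_smul, zero_mul] at this
    rw [this]
    simp
  rw [aeval_permPoly, ← h2, h1, Fintype.card_fin]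
  refine sum_congr rfl fun k _ => ?_
  have h3 : emb (line y 0) = (emb y).map (Polynomial.C : F →+* Polynomial F) := by
    ext1 i j
    rw [emb_map]
    have : emb (0 : Matrix (Fin M) (Fin M) F) i j = 0 := by
      have := emb_smul (0 : F) (0 : Matrix (Fin M) (Fin M) F) i j
      rwa [zero_smul, zero_mul] at this
    rw [this]
    simp
  rw [h3, B_map.1, B_map.2, Fk_map, mul_comm]

/-- The restriction of the permanent to a second line. -/
theorem line_two (y z : Matrix (Fin M) (Fin M) F) (s : F) :
    MvPolynomial.aeval (fun v => Polynomial.C ((x₀ F M + s • embL y) v) +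
      Polynomial.X * Polynomial.C ((s • embL z) v)) (permPoly F (M + 2)) =
      ∑ k ∈ range (M + 3), Polynomial.C (s ^ k) *
        Fk (B1 (Polynomial F) M) (B2 (Polynomial F) M) 0 1 (emb (line y z)) k := by
  have H := hyp (line y z)
  have h1 := expansion (B1 (Polynomial F) M) (B2 (Polynomial F) M) 0 1 H.ne _ H.c₁ H.c₂
    (Polynomial.C s : Polynomial F)
  have h2 : base (B1 (Polynomial F) M) (B2 (Polynomial F) M) 0 1 +
      (Polynomial.C s : Polynomial F) • emb (line y z) =
      Matrix.of fun i j => Polynomial.C ((x₀ F M + s • embL y) (i, j)) +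
        Polynomial.X * Polynomial.C ((s • embL z) (i, j)) := by
    ext1 i j
    change base (B1 (Polynomial F) M) (B2 (Polynomial F) M) 0 1 i j +
      Polynomial.C s * emb (line y z) i j =
        Polynomial.C (base (B1 F M) (B2 F M) 0 1 i j + s * emb y i j) +
        Polynomial.X * Polynomial.C (s * emb z i j)
    rw [base_map, emb_map, map_add, map_mul, map_mul]
    ring
  rw [aeval_permPoly, ← h2, h1, Fintype.card_fin]
  refine sum_congr rfl fun k _ => ?_
  rw [map_pow]

/-- The total sum. -/
def tot : Matrix (Fin M) (Fin M) F →ₗ[F] F where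
  toFun y := ∑ c, ∑ r, y r c
  map_add' y z := by simp [sum_add_distrib]
  map_smul' s y := by simp [mul_sum]

/-- The centered coordinates. -/
def Xm : Matrix (Fin M) (Fin M) F →ₗ[F] (Fin M × Fin M → F) where
  toFun y v := 2 * y v.1 v.2 - (∑ j, y v.1 j) - ∑ i, y i v.2
  map_add' y z := by
    funext v
    simp only [Matrix.add_apply, sum_add_distrib, Pi.add_apply]
    ring
  map_smul' s y := by
    funext v
    simp only [Matrix.smul_apply, smul_eq_mul, ← mul_sum, RingHom.id_apply, Pi.smul_apply]
    ring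

theorem sum_emb (y : Matrix (Fin M) (Fin M) F) : ∑ r, ∑ c, emb y r c = tot y := by
  rw [sum2, sum_eq_zero fun j _ => emb_r0 y j, sum_eq_zero fun j _ => emb_r1 y j, zero_add,
    zero_add]
  rw [sum_congr rfl fun r _ => sum_row y r]
  exact sum_comm

/-- The cubic condition. -/
theorem cubic [CharZero F] (hM : 3 ≤ M) (y z : Matrix (Fin M) (Fin M) F) (hy : tot y = 0)
    (hr : ∀ r, ∑ c, z r c = 0) (hc : ∀ c, ∑ r, z r c = 0)
    (h : ∀ s : F, (∑ k ∈ range (M + 3), Polynomial.C (s ^ k) *
      Fk (B1 (Polynomial F) M) (B2 (Polynomial F) M) 0 1 (emb (line y z)) k).coeff 1 = 0) :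
    ∑ r, ∑ c, z r c * (Xm y (r, c)) ^ 2 = 0 := by
  set f : ℕ → Polynomial F := fun k =>
    Fk (B1 (Polynomial F) M) (B2 (Polynomial F) M) 0 1 (emb (line y z)) k with hf
  -- the coefficient of `s ^ 3`
  have h3 : (f 3).coeff 1 = 0 := by
    let q : Polynomial F := ∑ k ∈ range (M + 3), Polynomial.C ((f k).coeff 1) * Polynomial.X ^ k
    have hq : q = 0 := by
      refine Polynomial.funext fun s => ?_
      rw [Polynomial.eval_zero, ← h s, Polynomial.eval_finsetSum, Polynomial.finsetSum_coeff]
      refine sum_congr rfl fun k _ => ?_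
      rw [Polynomial.coeff_C_mul, Polynomial.eval_mul, Polynomial.eval_C, Polynomial.eval_pow,
        Polynomial.eval_X, mul_comm]
    have hq3 : q.coeff 3 = (f 3).coeff 1 := by
      rw [Polynomial.finsetSum_coeff]
      simp only [Polynomial.coeff_C_mul_X_pow]
      rw [sum_ite_eq, if_pos (by rw [mem_range]; omega)]
    rw [← hq3, hq, Polynomial.coeff_zero]
  have H := (hyp (line y z)).F3
  rw [G_emb] at H
  have hG : (Perm.G (line y z)).coeff 1 = 0 := by
    set N : F := (Fintype.card (Fin (M + 2)) : F) with hN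
    have e1 : ((Fintype.card (Fin (M + 2)) : Polynomial F)) = Polynomial.C N := by
      rw [hN, map_natCast]
    have e2 : (((Fintype.card (Fin (M + 2))).factorial : Polynomial F)) =
        Polynomial.C ((Fintype.card (Fin (M + 2))).factorial : F) := by
      rw [map_natCast]
    have c1 : (1 : Polynomial F) = Polynomial.C 1 := rfl
    have c2 : (2 : Polynomial F) = Polynomial.C 2 := rfl
    have c3 : (3 : Polynomial F) = Polynomial.C 3 := rfl
    have c4 : (4 : Polynomial F) = Polynomial.C 4 := rfl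
    have c6 : (6 : Polynomial F) = Polynomial.C 6 := rfl
    rw [e1, e2, c1, c2, c3, c4, c6, ← map_sub, ← map_sub, ← map_sub, ← map_sub, ← map_mul,
      ← map_mul, ← map_mul, ← map_mul, ← map_mul] at H
    have H1 := congrArg (fun p : Polynomial F => p.coeff 1) H
    simp only [Polynomial.coeff_C_mul] at H1
    have h3' : (Fk (B1 (Polynomial F) M) (B2 (Polynomial F) M) 0 1 (emb (line y z)) 3).coeff 1 =
      0 := h3
    rw [h3', mul_zero, mul_zero] at H1
    have hne : (3 : F) * ((Fintype.card (Fin (M + 2))).factorial : F) ≠ 0 := by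
      refine mul_ne_zero three_ne_zero ?_
      exact_mod_cast Nat.factorial_ne_zero _
    rcases mul_eq_zero.1 H1.symm with h5 | h5
    · exact absurd h5 hne
    · exact h5
  rw [coeff_G y z hy hr hc] at hG
  have hx : ∀ r c, z r c * (Xm y (r, c)) ^ 2 =
      (1 / 3) * (z r c * (12 * y r c ^ 2 - 12 * ((∑ j, y r j) + ∑ i, y i c) * y r c +
        6 * (∑ j, y r j) * ∑ i, y i c)) + (∑ j, y r j) ^ 2 * z r c +
        (∑ i, y i c) ^ 2 * z r c := by
    intro r c
    change z r c * (2 * y r c - (∑ j, y r j) - ∑ i, y i c) ^ 2 = _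
    ring
  simp only [hx, sum_add_distrib, ← mul_sum]
  rw [hG, mul_zero, zero_add, sum_eq_zero fun r _ => by rw [hr, mul_zero], zero_add, sum_comm]
  refine sum_eq_zero fun c _ => ?_
  rw [← mul_sum, hc, mul_zero]

/-- The pencil of the linear parts. -/
noncomputable def Cm {n : ℕ}
    (A : Matrix (Fin n) (Fin n) (MvPolynomial (Fin (M + 2) × Fin (M + 2)) F)) :
    Matrix (Fin M) (Fin M) F →ₗ[F] Matrix (Fin n) (Fin n) F where
  toFun y := Matrix.of fun i j => lin (A i j) (embL y)
  map_add' y z := by ext i j; simp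
  map_smul' s y := by ext i j; simp

theorem X_inj [CharZero F] (hM : 3 ≤ M) (y : Matrix (Fin M) (Fin M) F) (hy : tot y = 0)
    (hx : Xm y = 0) : y = 0 := by
  have hx' : ∀ r c, 2 * y r c = (∑ j, y r j) + ∑ i, y i c := by
    intro r c
    have : 2 * y r c - (∑ j, y r j) - ∑ i, y i c = 0 := congrFun hx (r, c)
    linear_combination this
  have htot : ∑ c, ∑ r, y r c = 0 := hy
  have htot' : ∑ r, ∑ c, y r c = 0 := by
    rw [← htot]; exact sum_comm
  have hne : (M : F) - 2 ≠ 0 := by
    have : ((M - 2 : ℕ) : F) ≠ 0 := by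
      rw [Nat.cast_ne_zero]; omega
    rwa [Nat.cast_sub (by omega)] at this
  have hR : ∀ r, ∑ j, y r j = 0 := by
    intro r
    have h1 : ∑ c, 2 * y r c = ∑ c, ((∑ j, y r j) + ∑ i, y i c) :=
      sum_congr rfl fun c _ => hx' r c
    rw [← mul_sum, sum_add_distrib, htot, sum_const, card_univ, Fintype.card_fin, nsmul_eq_mul,
      add_zero] at h1
    have h2 : ((M : F) - 2) * ∑ j, y r j = 0 := by linear_combination - h1
    rcases mul_eq_zero.1 h2 with h | h
    · exact absurd h hne
    · exact h
  have hC : ∀ c, ∑ i, y i c = 0 := by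
    intro c
    have h1 : ∑ r, 2 * y r c = ∑ r, ((∑ j, y r j) + ∑ i, y i c) :=
      sum_congr rfl fun r _ => hx' r c
    rw [← mul_sum, sum_add_distrib, htot', sum_const, card_univ, Fintype.card_fin, nsmul_eq_mul,
      zero_add] at h1
    have h2 : ((M : F) - 2) * ∑ i, y i c = 0 := by linear_combination - h1
    rcases mul_eq_zero.1 h2 with h | h
    · exact absurd h hne
    · exact h
  ext r c
  have := hx' r c
  rw [hR, hC, add_zero] at this
  simpa using this

theorem core [CharZero F] (M N n : ℕ) (hMdef : M = N + 1) (hN : 2 ≤ N)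
    (A : Matrix (Fin n) (Fin n) (MvPolynomial (Fin (M + 2) × Fin (M + 2)) F))
    (hA : ∀ i j, (A i j).totalDegree ≤ 1) (hdet : A.det = permPoly F (M + 2)) :
    N ^ 2 ≤ n := by
  classical
  have hM : 3 ≤ M := by omega
  set B : Matrix (Fin n) (Fin n) F := A.map (MvPolynomial.eval (x₀ F M)) with hB
  have hcard : ((Fintype.card (Fin (M + 2)) : ℕ)) = M + 2 := Fintype.card_fin _
  -- factors
  have hc0 : ((M + 2 : ℕ) : F) ≠ 0 := Nat.cast_ne_zero.2 (by omega)
  have hc1 : ((M + 2 : ℕ) : F) - 1 ≠ 0 := by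
    have : ((M + 1 : ℕ) : F) ≠ 0 := Nat.cast_ne_zero.2 (by omega)
    intro h; apply this; push_cast at h ⊢; linear_combination h
  have hc2 : ((M + 2 : ℕ) : F) - 2 ≠ 0 := by
    have : ((M : ℕ) : F) ≠ 0 := Nat.cast_ne_zero.2 (by omega)
    intro h; apply this; push_cast at h ⊢; linear_combination h
  have hc3 : ((M + 2 : ℕ) : F) - 3 ≠ 0 := by
    have : ((M - 1 : ℕ) : F) ≠ 0 := Nat.cast_ne_zero.2 (by omega)
    rw [Nat.cast_sub (by omega)] at this
    intro h; apply this; push_cast at h ⊢; linear_combination h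
  have hfac : ((M + 2).factorial : F) ≠ 0 := Nat.cast_ne_zero.2 (Nat.factorial_ne_zero _)
  -- the first coefficients
  have pen1 : ∀ y : Matrix (Fin M) (Fin M) F, pen B (Cm A y) =
      ∑ k ∈ range (M + 3), Polynomial.C (Fk (B1 F M) (B2 F M) 0 1 (emb y) k) *
        Polynomial.X ^ k := by
    intro y
    rw [← line_one, ← hdet]
    exact pen_eq A hA (x₀ F M) (embL y)
  have co : ∀ (y : Matrix (Fin M) (Fin M) F) (j : ℕ), j < M + 3 → (pen B (Cm A y)).coeff j =
      Fk (B1 F M) (B2 F M) 0 1 (emb y) j := by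
    intro y j hj
    rw [pen1, Polynomial.finsetSum_coeff]
    simp only [Polynomial.coeff_C_mul_X_pow]
    rw [sum_ite_eq, if_pos (mem_range.2 hj)]
  have f0 : ∀ y : Matrix (Fin M) (Fin M) F, Fk (B1 F M) (B2 F M) 0 1 (emb y) 0 = 0 := by
    intro y
    have := (hyp y).F0
    rw [hcard] at this
    rcases mul_eq_zero.1 this with h | h
    · rcases mul_eq_zero.1 h with h | h
      · exact absurd h hc0
      · exact absurd h hc1
    · exact h
  have f2 : ∀ y : Matrix (Fin M) (Fin M) F, Fk (B1 F M) (B2 F M) 0 1 (emb y) 2 = 0 := by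
    intro y
    have := (hyp y).F2
    rw [hcard] at this
    rcases mul_eq_zero.1 this with h | h
    · rcases mul_eq_zero.1 h with h | h
      · exact absurd h hc2
      · exact absurd h hc3
    · exact h
  have f1 : ∀ y : Matrix (Fin M) (Fin M) F,
      (Fk (B1 F M) (B2 F M) 0 1 (emb y) 1 = 0 ↔ tot y = 0) := by
    intro y
    have := (hyp y).F1
    rw [hcard, sum_emb] at this
    constructor
    · intro h
      rw [h, mul_zero] at this
      rcases mul_eq_zero.1 (neg_eq_zero.1 this.symm) with h | h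
      · exact absurd h hfac
      · exact h
    · intro h
      rw [h, mul_zero, neg_zero] at this
      rcases mul_eq_zero.1 this with h | h
      · rcases mul_eq_zero.1 h with h | h
        · rcases mul_eq_zero.1 h with h | h
          · exact absurd h hc0
          · exact absurd h hc1
        · exact absurd h hc2
      · exact h
  have hB0 : B.det = 0 := by
    have h1 := co 0 0 (by omega)
    rw [f0, Polynomial.coeff_zero_eq_eval_zero, pen] at h1
    have h2 := RingHom.map_det (Polynomial.evalRingHom (0 : F))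
      (B.map Polynomial.C + (Polynomial.X : Polynomial F) • (Cm A 0).map Polynomial.C)
    rw [Polynomial.coe_evalRingHom] at h2
    rw [h2] at h1
    rw [← h1]
    congr 1
    ext i j
    simp
  -- the space of matrices with total sum zero
  obtain ⟨K, hKW, hKdim, hK⟩ := pencil B (Cm A) (LinearMap.ker tot) hB0
    (Matrix.of fun _ _ => (1 : F)) (by
      rw [co _ 1 (by omega), Ne, f1]
      have : tot (Matrix.of fun _ _ => (1 : F) : Matrix (Fin M) (Fin M) F) = (M : F) * M := by
        change ∑ _c : Fin M, ∑ _r : Fin M, (1 : F) = _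
        simp
      rw [this]
      have hM0 : (M : F) ≠ 0 := Nat.cast_ne_zero.2 (by omega)
      exact mul_ne_zero hM0 hM0)
    (fun y hy => by rw [co _ 1 (by omega), f1]; exact LinearMap.mem_ker.1 hy)
    (fun y _ => by rw [co _ 2 (by omega), f2])
  -- the condition on `K`
  have hcub : ∀ y ∈ K, ∀ z : Matrix (Fin M) (Fin M) F, (∀ r, ∑ c, z r c = 0) →
      (∀ c, ∑ r, z r c = 0) → ∑ r, ∑ c, z r c * (Xm y (r, c)) ^ 2 = 0 := by
    intro y hy z hr hc
    refine cubic hM y z (LinearMap.mem_ker.1 (hKW hy)) hr hc fun s => ?_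
    have hz : z ∈ LinearMap.ker (tot (F := F) (M := M)) := by
      rw [LinearMap.mem_ker]
      change ∑ c, ∑ r, z r c = 0
      exact sum_eq_zero fun c _ => hc c
    have h1 := hK y hy z hz s
    have h2 : B + s • Cm A y = A.map (MvPolynomial.eval (x₀ F M + s • embL y)) := by
      ext i j
      have := eval_add (A i j) (hA i j) (x₀ F M) (s • embL y)
      rw [map_smul] at this
      exact this.symm
    have h3 : s • Cm A z = Matrix.of fun i j => lin (A i j) (s • embL z) := by
      ext i j
      exact ((lin (A i j)).map_smul s (embL z)).symm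
    rw [h2, h3, pen_eq A hA, hdet, line_two] at h1
    exact h1
  -- the space of centered coordinates
  let φ : K →ₗ[F] (Fin M × Fin M → F) := Xm.comp K.subtype
  have hφ : Function.Injective φ := by
    rw [← LinearMap.ker_eq_bot, LinearMap.ker_eq_bot']
    rintro ⟨y, hy⟩ h
    have := X_inj hM y (LinearMap.mem_ker.1 (hKW hy)) h
    exact Subtype.ext this
  have hdimφ : finrank F (LinearMap.range φ) = finrank F K := LinearMap.finrank_range_of_inj hφ
  have hle : finrank F (LinearMap.range φ) ≤ 2 * N + 1 := by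
    subst hMdef
    refine le_trans (finrank_le_of_mul (LinearMap.range φ) (U F N) ?_) (finrank_U N)
    -- squares first
    have hsq : ∀ y ∈ K, ∀ k l : Fin (N + 1), (Xm y (k, l)) ^ 2 - (Xm y (k, 0)) ^ 2 -
        (Xm y (0, l)) ^ 2 + (Xm y (0, 0)) ^ 2 = 0 := by
      intro y hy k l
      let p : Fin (N + 1) → F := fun r => (if r = k then 1 else 0) - (if r = 0 then 1 else 0)
      let q : Fin (N + 1) → F := fun c => (if c = l then 1 else 0) - (if c = 0 then 1 else 0)
      have h := hcub y hy (fun r c => p r * q c)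
        (fun r => by
          change ∑ c, p r * q c = 0
          rw [← mul_sum]
          simp [q, sum_sub_distrib])
        (fun c => by
          change ∑ r, p r * q c = 0
          rw [← sum_mul]
          simp [p, sum_sub_distrib])
      have h1 : ∀ r, ∑ c, p r * q c * (Xm y (r, c)) ^ 2 =
          p r * ((Xm y (r, l)) ^ 2 - (Xm y (r, 0)) ^ 2) := by
        intro r
        simp only [mul_assoc]
        rw [← mul_sum]
        congr 1
        simp [q, sub_mul, sum_sub_distrib]
      have h2 : ∑ r, p r * ((Xm y (r, l)) ^ 2 - (Xm y (r, 0)) ^ 2) =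
          ((Xm y (k, l)) ^ 2 - (Xm y (k, 0)) ^ 2) - ((Xm y (0, l)) ^ 2 - (Xm y (0, 0)) ^ 2) := by
        simp [p, sub_mul, sum_sub_distrib]
      have h3 : ∑ r, ∑ c, p r * q c * (Xm y (r, c)) ^ 2 = 0 := h
      rw [sum_congr rfl fun r _ => h1 r, h2] at h3
      linear_combination h3
    rintro _ ⟨⟨y, hy⟩, rfl⟩ _ ⟨⟨y', hy'⟩, rfl⟩ k l
    change Xm y (k, l) * Xm y' (k, l) - Xm y (k, 0) * Xm y' (k, 0) -
      Xm y (0, l) * Xm y' (0, l) + Xm y (0, 0) * Xm y' (0, 0) = 0
    have h1 := hsq y hy k l
    have h2 := hsq y' hy' k l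
    have h3 := hsq (y + y') (K.add_mem hy hy') k l
    simp only [map_add, Pi.add_apply] at h3
    have h4 : (2 : F) ≠ 0 := two_ne_zero
    have h5 : (2 : F) * (Xm y (k, l) * Xm y' (k, l) - Xm y (k, 0) * Xm y' (k, 0) -
      Xm y (0, l) * Xm y' (0, l) + Xm y (0, 0) * Xm y' (0, 0)) = 0 := by
      linear_combination h3 - h1 - h2
    rcases mul_eq_zero.1 h5 with h | h
    · exact absurd h h4
    · exact h
  -- dimensions
  have hker := LinearMap.finrank_range_add_finrank_ker (tot (F := F) (M := M))
  have hrange : finrank F (LinearMap.range (tot (F := F) (M := M))) ≤ 1 := by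
    have := Submodule.finrank_le (LinearMap.range (tot (F := F) (M := M)))
    rwa [Module.finrank_self] at this
  have hV : finrank F (Matrix (Fin M) (Fin M) F) = M * M := by
    rw [Module.finrank_matrix]
    simp
  rw [hV] at hker
  have hMM : M * M = N ^ 2 + 2 * N + 1 := by
    rw [hMdef]; ring
  rw [hMM] at hker
  omega

end Final

end Pool.Agent.L5helper42.DC.Main
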